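import Pool.Agent.Lib.MP_841f14_al.Gauge1

namespace Pool.Agent.Lib.MP_841f14_al

open scoped commutatorElement

universe u

theorem int_jacobson : IsJacobsonRing ℤ := by
  rw [isJacobsonRing_iff_prime_eq]
  intro P hP
  by_cases h : P = ⊥
  · subst h
    rw [eq_bot_iff]
    intro x hx
    have := Ideal.mem_jacobson_bot.1 hx x
    rw [Int.isUnit_iff] at this
    have h2 := mul_self_nonneg x
    rw [Ideal.mem_bot]
    rcases this with h1 | h1
    · exact mul_self_eq_zero.1 (by omega)
    · omega
  · have := IsPrime.to_maximal_ideal h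
    exact Ideal.jacobson_eq_self_of_isMaximal

theorem finite_field (K : Type*) [Field K] [Algebra.FiniteType ℤ K] : Finite K := by
  have := int_jacobson
  have hf : Module.Finite ℤ K := finite_of_finite_type_of_isJacobsonRing ℤ K
  obtain ⟨p, hp⟩ := CharP.exists K
  rcases CharP.char_is_prime_or_zero K p with h | h
  · refine Module.finite_of_fg_torsion K ?_
    intro x
    refine ⟨⟨(p : ℤ), mem_nonZeroDivisors_of_ne_zero (by exact_mod_cast h.ne_zero)⟩, ?_⟩
    simp [Submonoid.smul_def]
  · subst h
    have : CharZero K := CharP.charP_to_charZero K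
    exact absurd (isField_of_isIntegral_of_isField (R := ℤ) (S := K) (algebraMap ℤ K).injective_int
      (Field.toIsField K)) Int.not_isField

theorem finite_quot {R : Type*} [CommRing R] [inst : Algebra ℤ R] [Algebra.FiniteType ℤ R]
    (m : Ideal R) [m.IsMaximal] : Finite (R ⧸ m) := by
  obtain rfl : inst = Ring.toIntAlgebra R := Subsingleton.elim _ _
  let _ := Ideal.Quotient.field m
  have h := Algebra.FiniteType.of_surjective (Ideal.Quotient.mk m).toIntAlgHom
    Ideal.Quotient.mk_surjective
  exact @finite_field (R ⧸ m) _ h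

/-- the affine group -/
@[ext] structure Aff (K V : Type u) [Field K] [AddCommGroup V] [Module K V] : Type u where
  c : Kˣ
  v : V

namespace Aff
variable {K V : Type u} [Field K] [AddCommGroup V] [Module K V]

instance : Mul (Aff K V) := ⟨fun x y => ⟨x.c * y.c, x.v + (x.c : K) • y.v⟩⟩
instance : One (Aff K V) := ⟨⟨1, 0⟩⟩
instance : Inv (Aff K V) := ⟨fun x => ⟨x.c⁻¹, -(((x.c⁻¹ : Kˣ) : K) • x.v)⟩⟩

@[simp] theorem mul_c (x y : Aff K V) : (x * y).c = x.c * y.c := rfl
@[simp] theorem mul_v (x y : Aff K V) : (x * y).v = x.v + (x.c : K) • y.v := rfl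
@[simp] theorem one_c : (1 : Aff K V).c = 1 := rfl
@[simp] theorem one_v : (1 : Aff K V).v = 0 := rfl
@[simp] theorem inv_c (x : Aff K V) : (x⁻¹).c = x.c⁻¹ := rfl
@[simp] theorem inv_v (x : Aff K V) : (x⁻¹).v = -(((x.c⁻¹ : Kˣ) : K) • x.v) := rfl

instance : Group (Aff K V) := Group.ofLeftAxioms
  (fun x y z => by ext <;> simp [mul_assoc, mul_smul, add_assoc])
  (fun x => by ext <;> simp)
  (fun x => by ext <;> simp)

def lin : Aff K V →* Kˣ where
  toFun := Aff.c
  map_one' := rfl
  map_mul' _ _ := rfl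

theorem fro [Finite K] : Fro (lin : Aff K V →* Kˣ) where
  h1 a b ha hb := by
    have ha' : a.c = 1 := ha
    have hb' : b.c = 1 := hb
    show a * b = b * a
    ext <;> simp [ha', hb', add_comm]
  h2 a b ha hb hc := by
    have ha' : a.c ≠ 1 := ha
    have hb' : b.c = 1 := hb
    have := congrArg Aff.v hc.eq
    simp only [mul_v, hb', Units.val_one, one_smul] at this
    have h1 : ((a.c : K) - 1) • b.v = 0 := by
      rw [sub_smul, one_smul, sub_eq_zero]
      exact add_left_cancel (this.trans (add_comm _ _))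
    rcases smul_eq_zero.1 h1 with h | h
    · exact absurd (Units.ext (sub_eq_zero.1 h)) ha'
    · ext <;> simp [hb', h]
  h4 := by
    let _ := Fintype.ofFinite K
    obtain ⟨p, hp⟩ := CharP.exists K
    obtain ⟨k, hpp, hk⟩ := FiniteField.card K p
    have h1 := Fintype.one_lt_card (α := K)
    refine ⟨p, Fintype.card K - 1, hpp, by omega, ?_, ?_, ?_⟩
    · rw [Nat.Prime.coprime_iff_not_dvd hpp]
      intro hd
      have h2 : p ∣ Fintype.card K := by rw [hk]; exact dvd_pow_self p k.ne_zero
      have h3 := Nat.dvd_sub h2 hd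
      rw [show Fintype.card K - (Fintype.card K - 1) = 1 by omega, Nat.dvd_one] at h3
      exact hpp.one_lt.ne' h3
    · intro t ht
      have ht' : t.c = 1 := ht
      have : ∀ j : ℕ, t ^ j = ⟨1, (j : K) • t.v⟩ := by
        intro j
        induction j with
        | zero => ext <;> simp
        | succ j ih => rw [pow_succ, ih]; ext <;> simp [ht', add_smul]
      rw [this]; ext <;> simp
    · intro c
      ext
      rw [Units.val_pow_eq_pow_val, FiniteField.pow_card_sub_one_eq_one _ c.ne_zero]; rfl

end Aff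

section
variable (E : Type u) [Group E]

/-- the abelianized commutator subgroup -/
def MM : Type u := Additive (Abelianization (commutator E))

instance : AddCommGroup (MM E) := inferInstanceAs (AddCommGroup (Additive _))

variable {E}

def mk (h : commutator E) : MM E := Additive.ofMul (Abelianization.of h)

theorem mk_mul (h k : commutator E) : mk (h * k) = mk h + mk k := by
  unfold mk; rw [map_mul]; rfl

theorem mk_one : mk (1 : commutator E) = 0 := by
  unfold mk; rw [map_one]; rfl

theorem mk_inv (h : commutator E) : mk h⁻¹ = - mk h := by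
  unfold mk; rw [map_inv]; rfl

theorem mk_surj (m : MM E) : ∃ h, mk h = m := by
  obtain ⟨h, hh⟩ := QuotientGroup.mk_surjective (Additive.toMul m : Abelianization (commutator E))
  exact ⟨h, congrArg Additive.ofMul hh⟩

theorem mk_eq_zero {h : commutator E} (hh : mk h = 0) : h ∈ commutator (commutator E) :=
  (QuotientGroup.eq_one_iff h).1 (congrArg Additive.toMul hh)

def act0 (a : E) : Module.End ℤ (MM E) :=
  (MonoidHom.toAdditive (Abelianization.map (cj a⁻¹))).toIntLinearMap

theorem act0_mk (a : E) (h : commutator E) : act0 a (mk h) = mk (cj a⁻¹ h) := rfl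

def act1 : E →* Module.End ℤ (MM E) where
  toFun := act0
  map_one' := by
    ext m; obtain ⟨h, rfl⟩ := mk_surj m
    rw [act0_mk]; simp
  map_mul' a b := by
    ext m; obtain ⟨h, rfl⟩ := mk_surj m
    rw [Module.End.mul_apply, act0_mk, act0_mk, act0_mk, cj_cj, mul_inv_rev]

def act2 : Abelianization E →* Module.End ℤ (MM E) :=
  QuotientGroup.lift (commutator E) act1 (by
    intro a ha
    rw [MonoidHom.mem_ker]
    ext m; obtain ⟨h, rfl⟩ := mk_surj m
    have : cj a⁻¹ h = (⟨a, ha⟩ : commutator E) * h * (⟨a, ha⟩ : commutator E)⁻¹ := by ext; simp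
    change act0 a (mk h) = mk h
    rw [act0_mk, this, mk_mul, mk_mul, mk_inv]; abel)

noncomputable instance : Module (MonoidAlgebra ℤ (Abelianization E)) (MM E) :=
  Module.compHom (MM E) (MonoidAlgebra.lift ℤ (Module.End ℤ (MM E)) (Abelianization E) act2).toRingHom

noncomputable def el (a : E) : MonoidAlgebra ℤ (Abelianization E) :=
  MonoidAlgebra.of ℤ _ (Abelianization.of a)

theorem el_smul (a : E) (h : commutator E) : el a • mk h = mk (cj a⁻¹ h) := by
  change (MonoidAlgebra.lift ℤ (Module.End ℤ (MM E)) (Abelianization E) act2 (el a)) (mk h) = _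
  rw [el, MonoidAlgebra.lift_of]; rfl

/-- the subgroup of the commutator subgroup attached to a submodule -/
def sub (N : Submodule (MonoidAlgebra ℤ (Abelianization E)) (MM E)) : Subgroup (commutator E) where
  carrier := {h | mk h ∈ N}
  mul_mem' {a b} ha hb := by
    show mk (a * b) ∈ N
    rw [mk_mul]; exact N.add_mem ha hb
  one_mem' := by show mk 1 ∈ N; rw [mk_one]; exact N.zero_mem
  inv_mem' {a} ha := by
    show mk a⁻¹ ∈ N
    rw [mk_inv]; exact N.neg_mem ha

theorem mem_sub {N : Submodule (MonoidAlgebra ℤ (Abelianization E)) (MM E)} {h : commutator E} :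
    h ∈ sub N ↔ mk h ∈ N := Iff.rfl

instance (N : Submodule (MonoidAlgebra ℤ (Abelianization E)) (MM E)) :
    ((sub N).map (commutator E).subtype).Normal := by
  constructor
  rintro _ ⟨h, hh, rfl⟩ a
  refine ⟨cj a⁻¹ h, ?_, by simp⟩
  show mk (cj a⁻¹ h) ∈ N
  rw [← el_smul]; exact N.smul_mem _ hh

theorem MM_finite [Group.FG E] : Module.Finite (MonoidAlgebra ℤ (Abelianization E)) (MM E) := by
  obtain ⟨T, hT, hfin⟩ := Group.fg_iff.1 (inferInstance : Group.FG E)
  refine ⟨Submodule.fg_def.2 ⟨Set.image2 (fun s t => mk (cc s t)) T T, hfin.image2 _ hfin, ?_⟩⟩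
  set N := Submodule.span (MonoidAlgebra ℤ (Abelianization E))
    (Set.image2 (fun s t => mk (cc s t)) T T)
  have hle : commutator E ≤ (sub N).map (commutator E).subtype := by
    refine le_trans (le_of_eq (show commutator E = ⁅Subgroup.closure T,
      Subgroup.closure T⁆ by rw [hT]; rfl)) ?_
    apply commutator_closure_le
    intro s hs t ht
    rw [comm_mem_iff, ← cm_mem_iff]
    exact ⟨cc s t, Submodule.subset_span ⟨s, hs, t, ht, rfl⟩, rfl⟩
  rw [eq_top_iff]
  intro m _
  obtain ⟨⟨a, ha⟩, rfl⟩ := mk_surj m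
  obtain ⟨h, hh, rfl⟩ := hle ha
  exact hh

theorem derived_nilp [Group.FG E]
    (H : ∀ (A C : Type u) [Group A] [CommGroup C] (L : A →* C), Fro L → ∀ π : E →* A,
      (∃ h, L (π h) ≠ 1) → ∀ u v, Commute (π u) (π v)) :
    ∃ k, (⊤ : Subgroup E).lowerCentralSeries k ≤ ⁅commutator E, commutator E⁆ := by
  have := int_jacobson
  have hM := MM_finite (E := E)
  have : Group.FG (Abelianization E) := Group.fg_of_surjective (f := Abelianization.of)
    QuotientGroup.mk_surjective
  have : Monoid.FG (Abelianization E) := Group.fg_iff_monoid_fg.1 this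
  have hft : Algebra.FiniteType ℤ (MonoidAlgebra ℤ (Abelianization E)) := inferInstance
  have : IsJacobsonRing (MonoidAlgebra ℤ (Abelianization E)) := isJacobsonRing_of_finiteType (A := ℤ)
  have : IsNoetherianRing (MonoidAlgebra ℤ (Abelianization E)) :=
    Algebra.FiniteType.isNoetherianRing ℤ _
  set I : Ideal (MonoidAlgebra ℤ (Abelianization E)) :=
    Ideal.span (Set.range fun a : E => el a - 1) with hI
  have hrad : I ≤ (Module.annihilator (MonoidAlgebra ℤ (Abelianization E)) (MM E)).radical := by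
    rw [Ideal.radical_eq_jacobson, hI, Ideal.span_le]
    rintro _ ⟨a, rfl⟩
    rw [SetLike.mem_coe, Ideal.jacobson, Ideal.mem_sInf]
    rintro m ⟨hm1, hm2⟩
    by_contra ha
    let _ := Ideal.Quotient.field m
    have : Finite (MonoidAlgebra ℤ (Abelianization E) ⧸ m) := finite_quot m
    let χ : E →* (MonoidAlgebra ℤ (Abelianization E) ⧸ m)ˣ :=
      ((Ideal.Quotient.mk m).toMonoidHom.comp
        ((MonoidAlgebra.of ℤ _).comp Abelianization.of)).toHomUnits
    have hχ : ∀ b, (χ b : MonoidAlgebra ℤ (Abelianization E) ⧸ m) = Ideal.Quotient.mk m (el b) :=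
      fun b => rfl
    let φ := (m • (⊤ : Submodule (MonoidAlgebra ℤ (Abelianization E)) (MM E))).mkQ
    have hφ : ∀ b h, φ (mk (cj b⁻¹ h)) =
        (χ b : MonoidAlgebra ℤ (Abelianization E) ⧸ m) • φ (mk h) := by
      intro b h
      rw [← el_smul, map_smul, hχ]; rfl
    let π : E →* Aff (MonoidAlgebra ℤ (Abelianization E) ⧸ m)
        (MM E ⧸ (m • (⊤ : Submodule (MonoidAlgebra ℤ (Abelianization E)) (MM E)))) :=
      MonoidHom.mk' (fun h => ⟨χ h, φ (mk (cc a⁻¹ h⁻¹))⟩) (by
        intro h k
        have : cc a⁻¹ (h * k)⁻¹ = cc a⁻¹ h⁻¹ * cj h⁻¹ (cc a⁻¹ k⁻¹) := by ext; simp; group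
        ext
        · simp
        · simp only [Aff.mul_v]
          rw [this, mk_mul, map_add, hφ])
    have hχa : χ a ≠ 1 := by
      intro h
      apply ha
      rw [← Ideal.Quotient.eq_zero_iff_mem, map_sub, ← hχ, h]; simp
    have hcomm := H _ _ Aff.lin Aff.fro π ⟨a, hχa⟩
    have hker : commutator E ≤ π.ker := by
      rw [commutator_def, Subgroup.commutator_le]
      intro u _ v _
      rw [MonoidHom.mem_ker, map_commutatorElement, (hcomm u v).commutator_eq]
    have hz : ∀ h : commutator E, φ (mk h) = 0 := by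
      intro h
      have h1 : φ (mk (cc a⁻¹ (h : E)⁻¹)) = 0 := congrArg Aff.v (hker h.2)
      have h2 : cc a⁻¹ (h : E)⁻¹ = cj a⁻¹ h * h⁻¹ := by ext; simp
      rw [h2, mk_mul, mk_inv, map_add, map_neg, hφ] at h1
      have h3 : ((χ a : MonoidAlgebra ℤ (Abelianization E) ⧸ m) - 1) • φ (mk h) = 0 := by
        rw [sub_smul, one_smul, sub_eq_add_neg]; exact h1
      rcases smul_eq_zero.1 h3 with h4 | h4
      · exact absurd (Units.ext (sub_eq_zero.1 h4)) hχa
      · exact h4
    obtain ⟨r, hr1, hr2⟩ := Submodule.exists_sub_one_mem_and_smul_eq_zero_of_fg_of_le_smul m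
      (⊤ : Submodule (MonoidAlgebra ℤ (Abelianization E)) (MM E)) hM.1 (by
        intro x _
        obtain ⟨h, rfl⟩ := mk_surj x
        exact (Submodule.Quotient.mk_eq_zero _).1 (hz h))
    have hr3 : r ∈ m := hm1 (Module.mem_annihilator.2 fun x => hr2 x trivial)
    exact hm2.ne_top ((Ideal.eq_top_iff_one m).2 (by simpa using m.sub_mem hr3 hr1))
  obtain ⟨k, hk⟩ := Ideal.exists_pow_le_of_le_radical_of_fg hrad (IsNoetherian.noetherian I)
  have hl : ∀ j, (⊤ : Subgroup E).lowerCentralSeries (j + 1) ≤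
      (sub (I ^ j • ⊤)).map (commutator E).subtype := by
    intro j
    induction j with
    | zero =>
      intro a ha
      exact ⟨⟨a, ha⟩, mem_sub.2 (by simp), rfl⟩
    | succ j ih =>
      rw [Subgroup.lowerCentralSeries_succ, Subgroup.commutator_le]
      intro b hb a _
      obtain ⟨h, hh, rfl⟩ := ih hb
      refine ⟨h * (cj a⁻¹ h)⁻¹, ?_, by simp [commutatorElement_def, mul_assoc]⟩
      refine mem_sub.2 ?_
      rw [mk_mul, mk_inv, ← el_smul, pow_succ', Submodule.mul_smul]
      have : mk h + -(el a • mk h) = -((el a - 1) • mk h) := by rw [sub_smul, one_smul]; abel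
      rw [this]
      exact neg_mem (Submodule.smul_mem_smul (Ideal.subset_span ⟨a, rfl⟩) hh)
  refine ⟨k + 1, (hl k).trans ?_⟩
  rw [← Subgroup.map_subtype_commutator]
  apply Subgroup.map_mono
  intro h hh
  apply mk_eq_zero
  have : (I ^ k • ⊤ : Submodule (MonoidAlgebra ℤ (Abelianization E)) (MM E)) ≤ ⊥ := by
    rw [Submodule.smul_le]
    intro r hr x _
    exact Module.mem_annihilator.1 (hk hr) x
  exact this hh

end

end Pool.Agent.Lib.MP_841f14_al
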