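import Mathlib

namespace Pool.Agent.Lib.MP_841f14_al

open Subgroup
open scoped commutatorElement

variable {G : Type*} [Group G]

theorem three_sub (A B C N : Subgroup G) [N.Normal] (h1 : ⁅⁅B, C⁆, A⁆ ≤ N) (h2 : ⁅⁅C, A⁆, B⁆ ≤ N) :
    ⁅⁅A, B⁆, C⁆ ≤ N := by
  have key : ∀ H : Subgroup G, H ≤ N ↔ H.map (QuotientGroup.mk' N) = ⊥ := by
    intro H
    rw [Subgroup.map_eq_bot_iff, QuotientGroup.ker_mk']
  rw [key] at h1 h2 ⊢
  simp only [Subgroup.map_commutator] at h1 h2 ⊢
  exact Subgroup.commutator_commutator_eq_bot_of_rotate h1 h2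

theorem comm_mem_iff (N : Subgroup G) [N.Normal] (a b : G) :
    ⁅a, b⁆ ∈ N ↔ Commute (QuotientGroup.mk' N a) (QuotientGroup.mk' N b) := by
  rw [← commutatorElement_eq_one_iff_commute, ← map_commutatorElement, QuotientGroup.mk'_apply,
    QuotientGroup.eq_one_iff]

theorem commutator_closure_le (U V : Set G) (N : Subgroup G) [N.Normal]
    (h : ∀ u ∈ U, ∀ v ∈ V, ⁅u, v⁆ ∈ N) : ⁅closure U, closure V⁆ ≤ N := by
  rw [Subgroup.commutator_le]
  intro a ha b hb
  rw [comm_mem_iff]
  induction ha using Subgroup.closure_induction with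
  | mem x hx =>
    induction hb using Subgroup.closure_induction with
    | mem y hy => exact (comm_mem_iff N x y).1 (h x hx y hy)
    | one => simp
    | mul y z _ _ h1 h2 => rw [map_mul]; exact h1.mul_right h2
    | inv y _ h1 => rw [map_inv]; exact h1.inv_right
  | one => simp
  | mul y z _ _ h1 h2 => rw [map_mul]; exact h1.mul_left h2
  | inv y _ h1 => rw [map_inv]; exact h1.inv_left

theorem commutator_sup_le (A B K N : Subgroup G) [N.Normal] (h1 : ⁅A, K⁆ ≤ N) (h2 : ⁅B, K⁆ ≤ N) :
    ⁅A ⊔ B, K⁆ ≤ N := by
  have : A ⊔ B = closure ((A : Set G) ∪ B) := by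
    rw [Subgroup.closure_union, closure_eq, closure_eq]
  rw [this, ← closure_eq K]
  apply commutator_closure_le
  rintro u (hu | hu) v hv
  · exact h1 (commutator_mem_commutator hu hv)
  · exact h2 (commutator_mem_commutator hu hv)

theorem lcs_commutator (N : Subgroup G) [N.Normal] (j : ℕ) : ∀ i : ℕ,
    ⁅N.lowerCentralSeries i, N.lowerCentralSeries j⁆ ≤ N.lowerCentralSeries (i + j + 1) := by
  induction j with
  | zero => intro i; rw [Subgroup.lowerCentralSeries_zero, add_zero, Subgroup.lowerCentralSeries_succ]
  | succ j ih =>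
    intro i
    rw [Subgroup.lowerCentralSeries_succ N j, commutator_comm]
    apply three_sub
    · rw [commutator_comm N, ← Subgroup.lowerCentralSeries_succ]
      have := ih (i + 1)
      rwa [show i + 1 + j + 1 = i + (j + 1) + 1 by omega] at this
    · rw [show i + (j + 1) + 1 = (i + j + 1) + 1 by omega, Subgroup.lowerCentralSeries_succ N (i + j + 1)]
      exact commutator_mono (ih i) le_rfl

/-- iterated commutator with `K` -/
def itc (K : Subgroup G) (A : Subgroup G) : ℕ → Subgroup G
  | 0 => A
  | t + 1 => ⁅itc K A t, K⁆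

instance itc_normal (K A : Subgroup G) [K.Normal] [A.Normal] (t : ℕ) : (itc K A t).Normal := by
  induction t with
  | zero => simpa [itc]
  | succ t ih => rw [itc]; infer_instance

theorem itc_mono (K : Subgroup G) {A B : Subgroup G} (h : A ≤ B) (t : ℕ) :
    itc K A t ≤ itc K B t := by
  induction t with
  | zero => simpa [itc]
  | succ t ih => exact commutator_mono ih le_rfl

theorem itc_add (K A : Subgroup G) (s t : ℕ) : itc K A (s + t) = itc K (itc K A s) t := by
  induction t with
  | zero => rfl
  | succ t ih => rw [← add_assoc, itc, ih, itc]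

theorem itc_self (K : Subgroup G) (t : ℕ) : itc K K t = K.lowerCentralSeries t := by
  induction t with
  | zero => rfl
  | succ t ih => rw [itc, ih, Subgroup.lowerCentralSeries_succ]

theorem itc_le (K A : Subgroup G) [K.Normal] [A.Normal] (t : ℕ) : itc K A t ≤ A := by
  induction t with
  | zero => exact le_rfl
  | succ t ih => exact (commutator_le_left _ _).trans ih

theorem itc_anti (K A : Subgroup G) [K.Normal] [A.Normal] {s t : ℕ} (h : s ≤ t) :
    itc K A t ≤ itc K A s := by
  obtain ⟨r, rfl⟩ := Nat.exists_eq_add_of_le h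
  rw [itc_add]; exact itc_le _ _ _

theorem itc_sup (K A B : Subgroup G) [K.Normal] [A.Normal] [B.Normal] (t : ℕ) :
    itc K (A ⊔ B) t ≤ itc K A t ⊔ itc K B t := by
  induction t with
  | zero => exact le_rfl
  | succ t ih =>
    refine (commutator_mono ih le_rfl).trans ?_
    exact commutator_sup_le _ _ _ _ le_sup_left le_sup_right

/-- P. Hall's nilpotency criterion. -/
theorem hall_criterion (K N : Subgroup G) [K.Normal] [N.Normal] (hNK : N ≤ K) {k c : ℕ}
    (hN : N.lowerCentralSeries k = ⊥) (hK : K.lowerCentralSeries c ≤ ⁅N, N⁆) :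
    ∃ r, K.lowerCentralSeries r = ⊥ := by
  have h0 : itc K N c ≤ N.lowerCentralSeries 1 := by
    refine (itc_mono K hNK c).trans ?_
    rw [itc_self]; exact hK
  have step : ∀ i, ∃ r, itc K (N.lowerCentralSeries i) r ≤ N.lowerCentralSeries (i + 1) := by
    intro i
    induction i with
    | zero => exact ⟨c, h0⟩
    | succ i ih =>
      obtain ⟨r, hr⟩ := ih
      have key : ∀ t j l, r + c ≤ j + l + t →
          itc K ⁅itc K (N.lowerCentralSeries i) j, itc K N l⁆ t ≤ N.lowerCentralSeries (i + 2) := by
        intro t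
        induction t with
        | zero =>
          intro j l h
          rw [itc]
          rcases le_or_gt r j with h1 | h1
          · rw [Subgroup.lowerCentralSeries_succ N (i + 1)]
            exact commutator_mono ((itc_anti _ _ h1).trans hr) (itc_le _ _ _)
          · have h2 : c ≤ l := by omega
            exact (commutator_mono (itc_le _ _ _) ((itc_anti _ _ h2).trans h0)).trans
              (lcs_commutator N 1 i)
        | succ t iht =>
          intro j l h
          rw [add_comm t 1, itc_add]
          have : itc K ⁅itc K (N.lowerCentralSeries i) j, itc K N l⁆ 1 ≤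
              ⁅itc K (N.lowerCentralSeries i) (j + 1), itc K N l⁆ ⊔
              ⁅itc K (N.lowerCentralSeries i) j, itc K N (l + 1)⁆ := by
            change ⁅⁅_, _⁆, K⁆ ≤ _
            apply three_sub
            · rw [commutator_comm]; exact le_sup_right
            · rw [commutator_comm K]; exact le_sup_left
          refine (itc_mono K this t).trans ((itc_sup _ _ _ _).trans (sup_le ?_ ?_))
          · exact iht _ _ (by omega)
          · exact iht _ _ (by omega)
      exact ⟨r + c, key (r + c) 0 0 (by omega)⟩
  have fin : ∀ i, ∃ r, K.lowerCentralSeries r ≤ N.lowerCentralSeries (i + 1) := by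
    intro i
    induction i with
    | zero => exact ⟨c, hK⟩
    | succ i ih =>
      obtain ⟨r, hr⟩ := ih
      obtain ⟨s, hs⟩ := step (i + 1)
      refine ⟨r + s, ?_⟩
      rw [← itc_self, itc_add, itc_self]
      exact (itc_mono K hr s).trans hs
  obtain ⟨r, hr⟩ := fin k
  refine ⟨r, le_bot_iff.1 (hr.trans ?_)⟩
  rw [← hN]
  exact Subgroup.lowerCentralSeries_antitone N (Nat.le_succ k)

end Pool.Agent.Lib.MP_841f14_al
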