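import Mathlib

/-!
Hall basic commutators: formal commutators are elements of `FreeMagma X`, the weight is
`FreeMagma.length`.
-/

namespace Pool.Agent.Lib.MP_841f14_al

/-- The basic commutators determined by an ordering `lt` (`lt d c` means `d < c`). -/
inductive IsBasic {X : Type*} (lt : FreeMagma X → FreeMagma X → Prop) : FreeMagma X → Prop
  | of (x : X) : IsBasic lt (FreeMagma.of x)
  | mul (c d : FreeMagma X) : IsBasic lt c → IsBasic lt d → lt d c →
      (∀ c₁ c₂ : FreeMagma X, c = c₁ * c₂ → c₂ = d ∨ lt c₂ d) → IsBasic lt (c * d)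

/-- `lt` is a strict total order on the basic commutators in which smaller weight comes first. -/
structure IsHallOrder {X : Type*} (lt : FreeMagma X → FreeMagma X → Prop) : Prop where
  irrefl : ∀ a, IsBasic lt a → ¬ lt a a
  trans : ∀ a b c, IsBasic lt a → IsBasic lt b → IsBasic lt c → lt a b → lt b c → lt a c
  total : ∀ a b, IsBasic lt a → IsBasic lt b → a = b ∨ lt a b ∨ lt b a
  weight : ∀ a b, IsBasic lt a → IsBasic lt b → a.length < b.length → lt a b

/-- The value of a formal commutator, with `[a,b] = a⁻¹ b⁻¹ a b`. -/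
def ev {X : Type*} {G : Type*} [Group G] (g : X → G) : FreeMagma X → G
  | FreeMagma.of x => g x
  | FreeMagma.mul a b => (ev g a)⁻¹ * (ev g b)⁻¹ * ev g a * ev g b

end Pool.Agent.Lib.MP_841f14_al
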