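import Pool.Agent.Lib.MP_841f14_al.Gauge4
import Pool.Agent.Lib.MP_841f14_al.Alg

set_option linter.unusedSectionVars false

namespace Pool.Agent.Lib.MP_841f14_al

open scoped commutatorElement

section
variable {G : Type*} [Group G] {X : Type*} {A : Type*} [Group A] {C : Type*} [CommGroup C]
variable [LinearOrder X] {lt : FreeMagma X → FreeMagma X → Prop} {g : X → G} {L : A →* C}

theorem basic_letter (hlt : IsHallOrder lt) {a b a' b' : FreeMagma X} {y : X}
    (h1 : IsBasic lt (a * FreeMagma.of y)) (h2 : IsBasic lt (a' * b'))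
    (h : lt (a' * b') (a * FreeMagma.of y)) (e : b = a' * b') :
    IsBasic lt ((a * FreeMagma.of y) * b) := by
  subst e
  refine IsBasic.mul _ _ h1 h2 h ?_
  intro c₁ c₂ he
  cases he
  refine Or.inr (hlt.weight _ _ (IsBasic.of y) h2 ?_)
  have := len_pos a'
  have := len_pos b'
  rw [len_of, len_mul]; omega

theorem S_tree (hlt : IsHallOrder lt) (hord : ∀ x y : X, x < y ↔ lt (.of x) (.of y)) {m : ℕ} {y : X}
    {s : commutator G} (hs : S g m y s) : ∃ t, IsBasic lt (t * FreeMagma.of y) ∧
      (t * FreeMagma.of y).length = m ∧ ev g (t * FreeMagma.of y) = s := by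
  induction hs with
  | base z w h =>
    exact ⟨.of z, IsBasic.mul _ _ (IsBasic.of z) (IsBasic.of w) ((hord _ _).1 h)
      (by intro c₁ c₂ he; cases he), rfl, rfl⟩
  | step m y s x hs hl ih =>
    obtain ⟨t, h1, h2, h3⟩ := ih
    refine ⟨t * FreeMagma.of y, IsBasic.mul _ _ h1 (IsBasic.of x)
      (hlt.weight _ _ (IsBasic.of x) h1 (by rw [h2, len_of]; exact hs.two_le)) ?_,
      by rw [len_mul, h2, len_of], by rw [ev_mul, h3]; simp [mul_assoc]⟩
    intro c₁ c₂ he
    cases he
    rcases eq_or_lt_of_le hl with h | h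
    · exact Or.inl (by rw [h])
    · exact Or.inr ((hord _ _).1 h)

def Tr (lt : FreeMagma X → FreeMagma X → Prop) (g : X → G) (L : A →* C) (π : commutator G →* A)
    (w : ℕ) (h : FreeMagma X) : Prop :=
  ∃ u1 u2, ∃ d : commutator G, IsBasic lt (u1 * u2) ∧ (u1 * u2).length = w ∧
    ev g (u1 * u2) = d ∧ L (π d) = 1 ∧ π d ≠ 1 ∧ (u2 = h ∨ lt u2 h)

theorem L_cm (a b : A) : L (a⁻¹ * b⁻¹ * a * b) = 1 := by
  simp only [map_mul, map_inv]
  exact cm_of_commute (Commute.all _ _)

theorem Tr_pair (hlt : IsHallOrder lt) {π : commutator G →* A} {u1 u2 h1 : FreeMagma X} {y : X}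
    {d dh : commutator G} (hu : IsBasic lt (u1 * u2)) (hh : IsBasic lt (h1 * .of y))
    (eu : ev g (u1 * u2) = d) (eh : ev g (h1 * .of y) = dh)
    (hrf : u2 = h1 * .of y ∨ lt u2 (h1 * .of y)) (hnc : ¬ Commute (π dh) (π d)) :
    Tr lt g L π ((u1 * u2).length + (h1 * .of y).length) (h1 * .of y) := by
  rcases hlt.total _ _ hu hh with h | h | h
  · exfalso; apply hnc
    have : d = dh := Subtype.ext (by rw [← eu, ← eh, h])
    rw [this]
  · refine ⟨h1 * .of y, u1 * u2, dh⁻¹ * d⁻¹ * dh * d, basic_letter hlt hh hu h rfl,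
      by rw [len_mul (h1 * _), add_comm], by rw [ev_mul g (h1 * _), eu, eh]; rfl, ?_, ?_, Or.inr h⟩
    · simp only [map_mul π, map_inv π]; exact L_cm _ _
    · simp only [map_mul π, map_inv π]; exact fun h => hnc (commute_of_cm h)
  · refine ⟨u1 * u2, h1 * .of y, d⁻¹ * dh⁻¹ * d * dh, IsBasic.mul _ _ hu hh h ?_,
      rfl, by rw [ev_mul g (u1 * _), eu, eh]; rfl, ?_, ?_, Or.inl rfl⟩
    · intro c₁ c₂ he; cases he; exact hrf
    · simp only [map_mul π, map_inv π]; exact L_cm _ _
    · simp only [map_mul π, map_inv π]; exact fun h => hnc (commute_of_cm h).symm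

theorem Tr_step (hlt : IsHallOrder lt) (F : Fro L) {π : commutator G →* A} {h1 : FreeMagma X} {y : X}
    {dh : commutator G} (hh : IsBasic lt (h1 * .of y)) (eh : ev g (h1 * .of y) = dh)
    (ha : L (π dh) ≠ 1) {w : ℕ} (h : Tr lt g L π w (h1 * .of y)) (i : ℕ) :
    Tr lt g L π (w + i * (h1 * FreeMagma.of y).length) (h1 * .of y) := by
  induction i with
  | zero => simpa using h
  | succ i ih =>
    obtain ⟨u1, u2, d, hu, hl, eu, hd, hd1, hrf⟩ := ih
    have := Tr_pair (L := L) hlt hu hh eu eh hrf (fun hc => hd1 (F.h2 _ _ ha hd hc))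
    rwa [hl, add_assoc, ← Nat.succ_mul] at this

theorem Tr_mono (hlt : IsHallOrder lt) {π : commutator G →* A} {w : ℕ} {h h' : FreeMagma X}
    (hh : IsBasic lt h) (hh' : IsBasic lt h') (hl : lt h h') (H : Tr lt g L π w h) :
    Tr lt g L π w h' := by
  obtain ⟨u1, u2, d, hu, h1, eu, hd, hd1, hrf⟩ := H
  refine ⟨u1, u2, d, hu, h1, eu, hd, hd1, Or.inr ?_⟩
  rcases hrf with rfl | h2
  · exact hl
  · cases hu with
    | mul _ _ _ hb _ _ => exact hlt.trans _ _ _ hb hh hh' h2 hl

theorem r0_of (hlt : IsHallOrder lt) (hord : ∀ x y : X, x < y ↔ lt (.of x) (.of y)) {n : ℕ}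
    (hrel : ∀ t, IsBasic lt t → t.length = n → ev g t = 1) (y : X) (s : commutator G)
    (hs : S g n y s) : s = 1 := by
  obtain ⟨t, h1, h2, h3⟩ := S_tree hlt hord hs
  exact Subtype.ext (by rw [← h3, hrel _ h1 h2]; rfl)

theorem rel_of (hlt : IsHallOrder lt) (hord : ∀ x y : X, x < y ↔ lt (.of x) (.of y)) {n : ℕ}
    (hn : 7 ≤ n) (hg : Subgroup.closure (Set.range g) = ⊤)
    (hrel : ∀ t, IsBasic lt t → t.length = n → ev g t = 1) (F : Fro L) : Rel g L n := by
  have nT : ∀ π h, ¬ Tr lt g L π n h := by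
    rintro π h ⟨u1, u2, d, hu, hl, eu, -, hd1, -⟩
    apply hd1
    rw [show d = 1 from Subtype.ext (by rw [← eu, hrel _ hu hl]; rfl), map_one]
  have lw : ∀ (y y' : X) (t : FreeMagma X), IsBasic lt (t * .of y') →
      FreeMagma.of y = t * .of y' ∨ lt (.of y) (t * .of y') := by
    intro y y' t ht
    refine Or.inr (hlt.weight _ _ (IsBasic.of y) ht ?_)
    have := len_pos t
    rw [len_mul, len_of, len_of]; omega
  refine ⟨hn, hg, r0_of hlt hord hrel, ?_, ?_, ?_⟩
  · intro a b y y' s s' hs hs' hab
    obtain ⟨t, h1, h2, h3⟩ := S_tree hlt hord hs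
    obtain ⟨t', h1', h2', h3'⟩ := S_tree hlt hord hs'
    rcases hlt.total _ _ h1 h1' with h | h | h
    · have : s = s' := Subtype.ext (by rw [← h3, ← h3', h])
      rw [this]
    · have := hrel _ (basic_letter hlt h1' h1 h rfl) (by rw [len_mul (t' * _), h2, h2']; omega)
      rw [ev_mul g (t' * _), h3, h3'] at this
      exact Subtype.ext (commute_of_cm this).symm.eq
    · have := hrel _ (basic_letter hlt h1 h1' h rfl) (by rw [len_mul (t * _), h2, h2']; omega)
      rw [ev_mul g (t * _), h3, h3'] at this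
      exact Subtype.ext (commute_of_cm this).eq
  · intro π a b y y' s h hs hh ha hnc i e
    obtain ⟨t, h1, h2, h3⟩ := S_tree hlt hord hs
    obtain ⟨t', h1', h2', h3'⟩ := S_tree hlt hord hh
    have := Tr_step hlt F h1' h3' ha (Tr_pair (L := L) hlt h1 h1' h3 h3' (lw _ _ _ h1') hnc) i
    rw [h2, h2', e] at this
    exact nT _ _ this
  · intro π a b c y y' y'' s h h' hs hh hh' ha ha' hbc hnc i j e
    obtain ⟨t, h1, h2, h3⟩ := S_tree hlt hord hs
    obtain ⟨t', h1', h2', h3'⟩ := S_tree hlt hord hh
    obtain ⟨t'', h1'', h2'', h3''⟩ := S_tree hlt hord hh'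
    have := Tr_step hlt F h1'' h3'' ha' (Tr_mono hlt h1' h1'' (hlt.weight _ _ h1' h1'' (by omega))
      (Tr_step hlt F h1' h3' ha (Tr_pair (L := L) hlt h1 h1' h3 h3' (lw _ _ _ h1') hnc) i)) j
    rw [h2, h2', h2'', e] at this
    exact nT _ _ this

end

theorem fin_main {G : Type*} [Group G] {X : Type*} [Finite X]
    {lt : FreeMagma X → FreeMagma X → Prop} (hlt : IsHallOrder lt) (g : X → G)
    (hg : Subgroup.closure (Set.range g) = ⊤) {n : ℕ} (hn : 7 ≤ n)
    (hrel : ∀ t, IsBasic lt t → t.length = n → ev g t = 1) {k : ℕ}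
    (hk : (⁅commutator G, commutator G⁆).lowerCentralSeries k = ⊥) : gam G n = ⊥ := by
  classical
  have sto : IsStrictTotalOrder X (fun x y => lt (.of x) (.of y)) :=
    { trichotomous := by
        intro a b h1 h2
        rcases hlt.total _ _ (IsBasic.of a) (IsBasic.of b) with h | h | h
        · cases h; rfl
        · exact absurd h h1
        · exact absurd h h2
      irrefl := fun a => hlt.irrefl _ (IsBasic.of a)
      trans := fun a b c => hlt.trans _ _ _ (IsBasic.of a) (IsBasic.of b) (IsBasic.of c) }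
  let _ : LinearOrder X := linearOrderOfSTO (fun x y => lt (.of x) (.of y))
  have hord : ∀ x y : X, x < y ↔ lt (.of x) (.of y) := fun x y => Iff.rfl
  have r0 := r0_of hlt hord hrel
  have hfg : Group.FG (commutator G) := by
    refine Group.fg_iff.2 ⟨_, H_top (n := n) (by omega) hg r0, ?_⟩
    refine Set.Finite.of_finite_image (f := Subtype.val) ?_ Subtype.val_injective.injOn
    refine ((finite_len (X := X) (n - 1)).image (ev g)).subset ?_
    rintro _ ⟨s, ⟨k, hk, y, hs⟩, rfl⟩
    obtain ⟨t, -, h2, h3⟩ := S_tree hlt hord hs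
    exact ⟨_, by rw [Set.mem_ofPred_eq, h2]; exact hk, h3⟩
  obtain ⟨r, hr⟩ := derived_nilp (E := commutator G) (fun A C _ _ L F π h0 =>
    gauge (rel_of hlt hord hn hg hrel F) F π h0)
  have hr' := Subgroup.map_mono (f := (commutator G).subtype) hr
  rw [Subgroup.top_subtype_lowerCentralSeries, Subgroup.map_commutator,
    Subgroup.map_subtype_commutator] at hr'
  obtain ⟨r1, h1⟩ := hall_criterion (commutator G) ⁅commutator G, commutator G⁆
    (Subgroup.commutator_le_left _ _) hk hr'
  obtain ⟨r2, h2⟩ := hall_criterion ⊤ (commutator G) le_top h1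
    (gam_le_derived (n := n) (by omega) hg r0)
  exact gam_eq_bot hlt g hg n (by omega) hrel h2

theorem map_len {X Y : Type*} (f : X → Y) (a : FreeMagma X) :
    (FreeMagma.map f a).length = a.length := by
  induction a with
  | ih1 x => rfl
  | ih2 a b ha hb => rw [map_mul, len_mul, len_mul, ha, hb]

theorem map_id_eq {X : Type*} (a : FreeMagma X) : FreeMagma.map id a = a := by
  induction a with
  | ih1 x => rfl
  | ih2 a b ha hb => rw [map_mul, ha, hb]

theorem map_inj {X Y : Type*} {f : X → Y} (hf : Function.Injective f) :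
    Function.Injective (FreeMagma.map f) := by
  intro a
  induction a with
  | ih1 x =>
    intro b h
    rcases b with y | ⟨c, d⟩
    · have h' : FreeMagma.of (f x) = FreeMagma.of (f y) := h
      injection h' with h'
      rw [hf h']
    · cases h
  | ih2 a b ha hb =>
    intro c h
    rcases c with y | ⟨c, d⟩
    · cases h
    · have h' : FreeMagma.mul (FreeMagma.map f a) (FreeMagma.map f b) =
          FreeMagma.mul (FreeMagma.map f c) (FreeMagma.map f d) := h
      injection h' with h1 h2
      rw [ha h1, hb h2]; rfl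

theorem basic_map {X Y : Type*} (f : X → Y) (lt : FreeMagma Y → FreeMagma Y → Prop)
    {a : FreeMagma X} (h : IsBasic (fun a b => lt (FreeMagma.map f a) (FreeMagma.map f b)) a) :
    IsBasic lt (FreeMagma.map f a) := by
  induction h with
  | of x => exact IsBasic.of (f x)
  | mul c d _ _ h3 h4 ih1 ih2 =>
    rw [map_mul]
    refine IsBasic.mul _ _ ih1 ih2 h3 ?_
    intro c₁ c₂ he
    rcases c with y | ⟨a, b⟩
    · cases he
    · have h' : FreeMagma.mul (FreeMagma.map f a) (FreeMagma.map f b) =
          FreeMagma.mul c₁ c₂ := he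
      injection h' with h1 h2
      rcases h4 a b rfl with h | h
      · left; rw [← h]; exact h2.symm
      · right; rw [← h2]; exact h

theorem ev_map {X Y : Type*} {G G' : Type*} [Group G] [Group G'] (f : X → Y) (g : X → G)
    (g' : Y → G') (φ : G →* G') (h : ∀ x, φ (g x) = g' (f x)) (a : FreeMagma X) :
    φ (ev g a) = ev g' (FreeMagma.map f a) := by
  induction a with
  | ih1 x => exact h x
  | ih2 a b ha hb => rw [map_mul (FreeMagma.map f), ev_mul, ev_mul, ← ha, ← hb]; simp

theorem gen_main {G : Type*} [Group G] {X : Type*}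
    {lt : FreeMagma X → FreeMagma X → Prop} (hlt : IsHallOrder lt) (g : X → G)
    (hg : Subgroup.closure (Set.range g) = ⊤) {n : ℕ} (hn : 7 ≤ n)
    (hrel : ∀ t, IsBasic lt t → t.length = n → ev g t = 1) {k : ℕ}
    (hk : (⁅commutator G, commutator G⁆).lowerCentralSeries k = ⊥) : gam G n = ⊥ := by
  classical
  let GY : Finset X → Subgroup G := fun Y => Subgroup.closure (g '' Y)
  have mono : Monotone GY := fun Y Z h => Subgroup.closure_mono (Set.image_mono h)
  have hY : ∀ Y, (GY Y).lowerCentralSeries (n - 1) = ⊥ := by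
    intro Y
    let gY : Y → GY Y := fun y => ⟨g y, Subgroup.subset_closure ⟨y, y.2, rfl⟩⟩
    have h := fin_main (G := GY Y) (X := Y)
      (lt := fun a b => lt (FreeMagma.map Subtype.val a) (FreeMagma.map Subtype.val b))
      ⟨fun a ha => hlt.irrefl _ (basic_map _ lt ha),
        fun a b c ha hb hc => hlt.trans _ _ _ (basic_map _ lt ha) (basic_map _ lt hb)
          (basic_map _ lt hc),
        fun a b ha hb => (hlt.total _ _ (basic_map _ lt ha) (basic_map _ lt hb)).imp_left
          (fun h => map_inj Subtype.val_injective h),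
        fun a b ha hb h => hlt.weight _ _ (basic_map _ lt ha) (basic_map _ lt hb)
          (by rwa [map_len, map_len])⟩ gY
      (by
        rw [← Subgroup.map_subtype_inj, MonoidHom.map_closure, ← MonoidHom.range_eq_map,
          Subgroup.subtype_range]
        change _ = Subgroup.closure (g '' Y)
        congr 1
        ext z
        constructor
        · rintro ⟨_, ⟨y, rfl⟩, rfl⟩
          exact ⟨y, y.2, rfl⟩
        · rintro ⟨y, hy, rfl⟩
          exact ⟨_, ⟨⟨y, hy⟩, rfl⟩, rfl⟩) hn
      (by
        intro t ht hl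
        apply Subtype.val_injective
        have := ev_map Subtype.val gY g (GY Y).subtype (fun _ => rfl) t
        rw [hrel _ (basic_map _ lt ht) (by rw [map_len, hl])] at this
        exact this) (k := k)
      (by
        rw [← Subgroup.map_subtype_inj, Subgroup.map_bot, Subgroup.map_lowerCentralSeries,
          eq_bot_iff, ← hk, Subgroup.map_commutator, Subgroup.map_subtype_commutator]
        apply Subgroup.lowerCentralSeries_mono
        exact Subgroup.commutator_mono (Subgroup.commutator_mono le_top le_top)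
          (Subgroup.commutator_mono le_top le_top))
    rw [← Subgroup.top_subtype_lowerCentralSeries]
    rw [gam] at h
    rw [h, Subgroup.map_bot]
  have hU : ∀ m, ∀ x ∈ (⊤ : Subgroup G).lowerCentralSeries m,
      ∃ Y, x ∈ (GY Y).lowerCentralSeries m := by
    intro m
    have dir : ∀ m, Directed (· ≤ ·) (fun Y => (GY Y).lowerCentralSeries m) := fun m =>
      Monotone.directed_le (fun Y Z h => Subgroup.lowerCentralSeries_mono m (mono h))
    induction m with
    | zero =>
      intro x hx
      rw [← Subgroup.mem_iSup_of_directed (dir 0)]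
      rw [Subgroup.lowerCentralSeries_zero, ← hg] at hx
      refine (Subgroup.closure_le _).2 ?_ hx
      rintro _ ⟨y, rfl⟩
      exact Subgroup.mem_iSup_of_mem {y} (Subgroup.subset_closure ⟨y, by simp, rfl⟩)
    | succ m ih =>
      intro x hx
      rw [← Subgroup.mem_iSup_of_directed (dir _)]
      rw [Subgroup.lowerCentralSeries_succ] at hx
      refine Subgroup.commutator_le.2 ?_ hx
      intro a ha b hb
      obtain ⟨Y, hY⟩ := ih a ha
      have hb' : b ∈ ⨆ Y, GY Y := by
        rw [← hg] at hb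
        refine (Subgroup.closure_le _).2 ?_ hb
        rintro _ ⟨y, rfl⟩
        exact Subgroup.mem_iSup_of_mem {y} (Subgroup.subset_closure ⟨y, by simp, rfl⟩)
      obtain ⟨Z, hZ⟩ := (Subgroup.mem_iSup_of_directed mono.directed_le).1 hb'
      refine Subgroup.mem_iSup_of_mem (Y ∪ Z) ?_
      rw [Subgroup.lowerCentralSeries_succ]
      exact Subgroup.commutator_mem_commutator
        (Subgroup.lowerCentralSeries_mono m (mono Finset.subset_union_left) hY)
        (mono Finset.subset_union_right hZ)
  rw [eq_bot_iff]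
  intro x hx
  obtain ⟨Y, h⟩ := hU _ x hx
  rwa [hY] at h

theorem free_main {X : Type*} {lt : FreeMagma X → FreeMagma X → Prop} (hlt : IsHallOrder lt)
    {n : ℕ} (hn : 7 ≤ n) (k : ℕ) :
    (⊤ : Subgroup (FreeGroup X)).lowerCentralSeries (n - 1) ≤
      Subgroup.normalClosure {w | ∃ t, IsBasic lt t ∧ t.length = n ∧ ev FreeGroup.of t = w} ⊔
        (derivedSeries (FreeGroup X) 2).lowerCentralSeries k := by
  set N := Subgroup.normalClosure {w | ∃ t, IsBasic lt t ∧ t.length = n ∧ ev FreeGroup.of t = w} ⊔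
    (derivedSeries (FreeGroup X) 2).lowerCentralSeries k with hN
  have hs := QuotientGroup.mk'_surjective N
  have htop : (⊤ : Subgroup (FreeGroup X)).map (QuotientGroup.mk' N) = ⊤ :=
    Subgroup.map_top_of_surjective _ hs
  have h := gen_main (G := FreeGroup X ⧸ N) hlt (fun x => QuotientGroup.mk' N (FreeGroup.of x))
    (by
      rw [← htop, ← FreeGroup.closure_range_of, MonoidHom.map_closure, ← Set.range_comp]; rfl) hn
    (by
      intro t ht hl
      have := ev_map id FreeGroup.of (fun x => QuotientGroup.mk' N (FreeGroup.of x))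
        (QuotientGroup.mk' N) (fun _ => rfl) t
      rw [map_id_eq t] at this
      rw [← this, QuotientGroup.mk'_apply, QuotientGroup.eq_one_iff]
      exact (le_sup_left : _ ≤ N) (Subgroup.subset_normalClosure ⟨t, ht, hl, rfl⟩)) (k := k)
    (by
      rw [commutator_def, ← htop, ← Subgroup.map_commutator, ← Subgroup.map_commutator,
        ← Subgroup.map_lowerCentralSeries, Subgroup.map_eq_bot_iff, QuotientGroup.ker_mk']
      exact le_sup_right)
  rw [gam, ← htop, ← Subgroup.map_lowerCentralSeries, Subgroup.map_eq_bot_iff,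
    QuotientGroup.ker_mk'] at h
  exact h

end Pool.Agent.Lib.MP_841f14_al
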