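import Pool.Agent.Lib.MP_841f14_al.Simple

namespace Pool.Agent.Lib.MP_841f14_al

variable {G : Type*} [Group G] {X : Type*} {A : Type*} [Group A] {C : Type*} [CommGroup C]

/-- abstract properties of the affine group -/
structure Fro (L : A →* C) : Prop where
  h1 : ∀ a b, L a = 1 → L b = 1 → Commute a b
  h2 : ∀ a b, L a ≠ 1 → L b = 1 → Commute a b → b = 1
  h4 : ∃ l m : ℕ, l.Prime ∧ 0 < m ∧ Nat.Coprime l m ∧ (∀ t, L t = 1 → t ^ l = 1) ∧
    ∀ c : C, c ^ m = 1

def Fx (a : A) : Subgroup A where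
  carrier := {x | Commute a x}
  mul_mem' h k := Commute.mul_right h k
  one_mem' := Commute.one_right a
  inv_mem' h := Commute.inv_right h

theorem mem_Fx {a x : A} : x ∈ Fx a ↔ Commute a x := Iff.rfl

theorem commute_of_cm {Q : Type*} [Group Q] {b c : Q} (h : b⁻¹ * c⁻¹ * b * c = 1) :
    Commute b c := by
  show b * c = c * b
  calc b * c = c * b * (b⁻¹ * c⁻¹ * b * c) := by group
    _ = c * b := by rw [h, mul_one]

theorem cm_of_commute {Q : Type*} [Group Q] {b c : Q} (h : Commute b c) :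
    b⁻¹ * c⁻¹ * b * c = 1 := by
  rw [mul_assoc, h.eq]; group

namespace Fro
variable {L : A →* C} (F : Fro L)
include F

theorem h3 {a b c : A} (ha : L a ≠ 1) (hb : b ∈ Fx a) (hc : c ∈ Fx a) : Commute b c := by
  apply commute_of_cm
  refine F.h2 a _ ha ?_ (mul_mem (mul_mem (mul_mem (inv_mem hb) (inv_mem hc)) hb) hc)
  simp only [map_mul, map_inv]
  exact cm_of_commute (Commute.all _ _)

theorem triv {a b : A} (ha : L a ≠ 1) (hb : b ∈ Fx a) (h : L b = 1) : b = 1 := F.h2 a b ha h hb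

theorem tr {a b s : A} (hb : b ∈ Fx a) (h : L b ≠ 1) (hs : Commute b s) : s ∈ Fx a :=
  F.h3 h (Commute.symm hb) hs

theorem kill {a b s : A} (ha : L a ≠ 1) (hb : b ∈ Fx a) (hs : Commute b s) (hn : s ∉ Fx a) :
    b = 1 := by
  by_cases h : L b = 1
  · exact F.triv ha hb h
  · exact absurd (F.tr hb h hs) hn

theorem char2 {t : A} (ht : L t = 1) (h1 : t ≠ 1) (h2 : t * t = 1) {c : C} (hc : c * c = 1) :
    c = 1 := by
  obtain ⟨l, m, hl, -, hco, ht', hm⟩ := F.h4
  have e1 : t ^ Nat.gcd l 2 = 1 := pow_gcd_eq_one.2 ⟨ht' t ht, by rw [pow_two, h2]⟩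
  have e2 : l = 2 := by
    by_contra hne
    have : Nat.gcd l 2 = 1 := (Nat.coprime_primes hl Nat.prime_two).2 hne
    rw [this, pow_one] at e1
    exact h1 e1
  subst e2
  have e3 : c ^ Nat.gcd 2 m = 1 := pow_gcd_eq_one.2 ⟨by rw [pow_two, hc], hm c⟩
  rwa [hco, pow_one] at e3

end Fro

theorem newton (T : ℕ → ℕ → C) (d : ℕ) (μ : C) (hrec : ∀ j i, T (j + 1) i = (T j i)⁻¹ * T j (i + 1))
    (htop : ∀ i, T (d + 1) i = 1) (h0 : ∀ i < d, T 0 i = 1) (hd : T 0 d = μ) :
    ∀ k j, j + k = d → ∀ i, T j i = μ ^ i.choose k := by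
  have a1 : ∀ j i, i + j < d → T j i = 1 := by
    intro j
    induction j with
    | zero => intro i h; exact h0 i h
    | succ j ih => intro i h; rw [hrec, ih i (by omega), ih (i + 1) (by omega)]; simp
  have a2 : ∀ j i, i + j = d → T j i = μ := by
    intro j
    induction j with
    | zero => intro i h; rw [show i = d by omega]; exact hd
    | succ j ih => intro i h; rw [hrec, a1 j i (by omega), ih (i + 1) (by omega)]; simp
  have a3 : ∀ j i, T j (i + 1) = T j i * T (j + 1) i := by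
    intro j i; rw [hrec]; simp
  intro k
  induction k with
  | zero =>
    intro j hj i
    obtain rfl : j = d := by omega
    induction i with
    | zero => simpa using a2 j 0 (by omega)
    | succ i ih => rw [a3, htop, ih]; simp
  | succ k ihk =>
    intro j hj i
    induction i with
    | zero => simpa using a1 j 0 (by omega)
    | succ i ih => rw [a3, ih, ihk (j + 1) (by omega), Nat.choose_succ_succ, pow_add, mul_comm]

theorem periodic {M : Type*} [Group M] (K : Subgroup M) (hK : ∀ a ∈ K, ∀ b ∈ K, Commute a b)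
    (q : ℕ) (hq : ∀ a ∈ K, a ^ q = 1) (U : ℕ → ℤ → M) (hU : ∀ j k, U j k ∈ K)
    (hrec : ∀ j k, U (j + 1) k = (U j k)⁻¹ * U j (k + 1)) (J : ℕ) (htop : ∀ k, U J k = 1) :
    ∀ r j, j + r = J → ∀ k (i : ℤ), U j (k + i * (q ^ r : ℕ)) = U j k := by
  intro r
  induction r with
  | zero => intro j hj k i; obtain rfl : j = J := by omega
            rw [htop, htop]
  | succ r ih =>
    intro j hj
    have ih' := ih (j + 1) (by omega)
    set P : ℤ := ((q ^ r : ℕ) : ℤ) with hP
    have a3 : ∀ k, U j (k + 1) = U j k * U (j + 1) k := by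
      intro k; rw [hrec]; simp
    have d1 : ∀ k, (U j (k + 1))⁻¹ * U j (k + 1 + P) = (U j k)⁻¹ * U j (k + P) := by
      intro k
      have e := ih' k 1
      rw [one_mul] at e
      rw [show k + 1 + P = (k + P) + 1 by ring, a3, a3, e]
      have c1 := hK _ (mul_mem (inv_mem (hU j k)) (hU j (k + P))) _ (hU (j + 1) k)
      calc (U j k * U (j + 1) k)⁻¹ * (U j (k + P) * U (j + 1) k)
          = (U (j + 1) k)⁻¹ * (((U j k)⁻¹ * U j (k + P)) * U (j + 1) k) := by group
        _ = (U (j + 1) k)⁻¹ * (U (j + 1) k * ((U j k)⁻¹ * U j (k + P))) := by rw [c1.eq]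
        _ = _ := by group
    have d2 : ∀ k, (U j k)⁻¹ * U j (k + P) = (U j 0)⁻¹ * U j (0 + P) := by
      intro k
      induction k using Int.induction_on with
      | zero => rfl
      | succ k ihk => rw [d1, ihk]
      | pred k ihk => rw [← d1, show (-(k : ℤ) - 1 + 1) = -k by ring, ihk]
    set δ := (U j 0)⁻¹ * U j (0 + P) with hδ
    have d3 : ∀ (i : ℕ) k, U j (k + i * P) = U j k * δ ^ i := by
      intro i
      induction i with
      | zero => intro k; simp
      | succ i ihi =>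
        intro k
        rw [show k + ((i + 1 : ℕ) : ℤ) * P = (k + i * P) + P by push_cast; ring, pow_succ,
          ← mul_assoc, ← ihi, ← d2 (k + i * P)]
        simp
    have d4 : ∀ k, U j (k + (q ^ (r + 1) : ℕ)) = U j k := by
      intro k
      rw [show k + ((q ^ (r + 1) : ℕ) : ℤ) = k + q * P by rw [hP]; push_cast; ring, d3,
        hq δ (mul_mem (inv_mem (hU _ _)) (hU _ _)), mul_one]
    intro k i
    induction i using Int.induction_on with
    | zero => simp
    | succ i ihi => rw [add_mul, one_mul, ← add_assoc, d4, ihi]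
    | pred i ihi => rw [← d4, sub_mul, one_mul, add_assoc, sub_add_cancel, ihi]

theorem KC {Q : Type*} [Group Q] (ρ x y s s' : Q) (hs : s = ρ⁻¹ * (y⁻¹ * ρ * y))
    (hs' : s' = ρ⁻¹ * (x⁻¹ * ρ * x)) (h1 : Commute s' x) (h2 : Commute s' y) (h3 : Commute s y)
    (h4 : Commute ρ (y⁻¹ * x⁻¹ * y * x)) : x⁻¹ * s * x = s'⁻¹ * s * s' := by
  set e := y⁻¹ * x⁻¹ * y * x with he
  have h5 : Commute s' e := (((h2.inv_right.mul_right h1.inv_right).mul_right h2).mul_right h1)
  have E : s' * (x⁻¹ * s * x) = (e⁻¹ * s * e) * s' := by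
    apply mul_left_cancel (a := ρ)
    calc ρ * (s' * (x⁻¹ * s * x)) = e⁻¹ * (y⁻¹ * (ρ * s') * y) * e := by
          rw [hs, hs', he]; group
      _ = e⁻¹ * (y⁻¹ * ρ * (s' * y)) * e := by group
      _ = e⁻¹ * (y⁻¹ * ρ * (y * s')) * e := by rw [h2.eq]
      _ = (e⁻¹ * ρ) * s * (s' * e) := by rw [hs]; group
      _ = (ρ * e⁻¹) * s * (e * s') := by rw [h5.eq, h4.inv_right.eq]
      _ = _ := by group
  have E2 : e⁻¹ * s * e = x⁻¹ * y⁻¹ * (x * s * x⁻¹) * y * x := by
    calc e⁻¹ * s * e = x⁻¹ * y⁻¹ * x * (y * s) * y⁻¹ * x⁻¹ * y * x := by rw [he]; group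
      _ = x⁻¹ * y⁻¹ * x * (s * y) * y⁻¹ * x⁻¹ * y * x := by rw [h3.eq]
      _ = _ := by group
  rw [E2] at E
  have E3 : x * s * x⁻¹ = s' * s * s'⁻¹ := by
    have c : Commute (s' * s * s'⁻¹) y := (h2.mul_left h3).mul_left h2.inv_left
    calc x * s * x⁻¹ = y * x * (x⁻¹ * y⁻¹ * (x * s * x⁻¹) * y * x * s') * s'⁻¹ * x⁻¹ * y⁻¹ := by
          group
      _ = y * x * (s' * (x⁻¹ * s * x)) * s'⁻¹ * x⁻¹ * y⁻¹ := by rw [E]
      _ = y * ((x * s') * x⁻¹ * s * (x * s'⁻¹) * x⁻¹) * y⁻¹ := by group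
      _ = y * ((s' * x) * x⁻¹ * s * (s'⁻¹ * x) * x⁻¹) * y⁻¹ := by rw [h1.eq, h1.inv_left.eq]
      _ = (y * (s' * s * s'⁻¹)) * y⁻¹ := by group
      _ = ((s' * s * s'⁻¹) * y) * y⁻¹ := by rw [c.eq]
      _ = _ := by group
  calc x⁻¹ * s * x = (x⁻¹ * s'⁻¹) * (s' * s * s'⁻¹) * (s' * x) := by group
    _ = (s'⁻¹ * x⁻¹) * (x * s * x⁻¹) * (x * s') := by rw [E3, h1.eq, h1.inv_inv.eq]
    _ = _ := by group

variable [LinearOrder X]

/-- consequences of the vanishing of the basic commutators of weight `n` -/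
structure Rel (g : X → G) (L : A →* C) (n : ℕ) : Prop where
  hn : 7 ≤ n
  gen : Subgroup.closure (Set.range g) = ⊤
  r0 : ∀ y s, S g n y s → s = 1
  r1 : ∀ a b y y' s s', S g a y s → S g b y' s' → a + b = n → Commute s s'
  r2 : ∀ (π : commutator G →* A) a b y y' s h, S g a y s → S g b y' h → L (π h) ≠ 1 →
    ¬ Commute (π h) (π s) → ∀ i, a + b + i * b ≠ n
  r3 : ∀ (π : commutator G →* A) a b c y y' y'' s h h', S g a y s → S g b y' h → S g c y'' h' →
    L (π h) ≠ 1 → L (π h') ≠ 1 → b < c → ¬ Commute (π h) (π s) → ∀ i j, a + b + i * b + j * c ≠ n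

def pos (π : commutator G →* A) (a : G) : commutator G →* A := π.comp (cj a)

@[simp] theorem pos_apply (π : commutator G →* A) (a : G) (h : commutator G) :
    pos π a h = π (cj a h) := rfl

def Om (g : X → G) (L : A →* C) (π : commutator G →* A) : Prop :=
  (∃ y c, S g 2 y c ∧ L (π c) ≠ 1) ∧ ∃ y t, S g 3 y t ∧ L (π t) ≠ 1

def Good (g : X → G) (L : A →* C) (n : ℕ) (π : commutator G →* A) (a : A) : Prop :=
  L a ≠ 1 ∧ ∀ h ∈ H g (n - 2), π h ∈ Fx a

variable {g : X → G} {L : A →* C} {n : ℕ}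

theorem Good.mem {π : commutator G →* A} {a : A} (h : Good g L n π a) {k : ℕ} {s : commutator G}
    (hs : s ∈ H g k) (hk : k + 2 ≤ n) : π s ∈ Fx a := h.2 s (H_mono (by omega) hs)

theorem Rel.P0 (R : Rel g L n) (π : commutator G →* A) {a b : ℕ} {y y' : X} {s h : commutator G}
    (hs : S g a y s) (hh : S g b y' h) (ha : L (π h) ≠ 1) (i : ℕ) (e : a + b + i * b = n) :
    π s ∈ Fx (π h) := by
  by_contra hc
  exact R.r2 π a b y y' s h hs hh ha hc i e

theorem Rel.T0 (R : Rel g L n) (F : Fro L) (π : commutator G →* A) {a b : ℕ} {y y' : X}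
    {s h : commutator G} (hs : S g a y s) (hh : S g b y' h) (ha : L (π h) ≠ 1) (ht : L (π s) = 1)
    (i : ℕ) (e : a + i * b = n) : π s = 1 := by
  cases i with
  | zero => rw [R.r0 y s (by rw [← e]; simpa using hs), map_one]
  | succ i => exact F.triv ha (R.P0 π hs hh ha i (by rw [← e]; ring)) ht

theorem Rel.T1 (R : Rel g L n) (F : Fro L) (π : commutator G →* A) {a b c : ℕ} {y y' y'' : X}
    {s h h' : commutator G} (hs : S g a y s) (hh : S g b y' h) (hh' : S g c y'' h')
    (ha : L (π h) ≠ 1) (ha' : L (π h') ≠ 1) (hbc : b < c) (ht : L (π s) = 1)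
    (i j : ℕ) (e : a + i * b + j * c = n) : π s = 1 := by
  cases i with
  | zero => exact R.T0 F π hs hh' ha' ht j (by rw [← e]; ring)
  | succ i =>
    refine F.triv ha ?_ ht
    by_contra hc
    exact R.r3 π a b c y y' y'' s h h' hs hh hh' ha ha' hbc hc i j (by rw [← e]; ring)

theorem Rel.fixS (R : Rel g L n) {y x : X} {s : commutator G} (hs : S g (n - 1) y s) (h : y ≤ x) :
    cj (g x) s = s := by
  have := R.hn
  rw [cj_eq, R.r0 x _ (hs.step' h (by omega)), mul_one]

theorem commute_of_cj {s : commutator G} {a : G} (h : cj a s = s) : Commute (s : G) a := by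
  have := congrArg Subtype.val h
  simp only [cj_coe] at this
  show (s : G) * a = a * s
  conv_rhs => rw [← this]
  group

theorem cj_of_commute {s : commutator G} {a : G} (h : Commute (s : G) a) : cj a s = s := by
  ext; simp [mul_assoc, h.eq]

theorem Rel.KCD (R : Rel g L n) {w x y : X} {ρ : commutator G} (hρ : S g (n - 2) w ρ) (hw : w ≤ x)
    (hxy : x < y) :
    cj (g x) (br ρ (g y)) = (br ρ (g x))⁻¹ * br ρ (g y) * br ρ (g x) := by
  have hn := R.hn
  have s1 : S g (n - 1) x (br ρ (g x)) := hρ.step' hw (by omega)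
  have s2 : S g (n - 1) y (br ρ (g y)) := hρ.step' (hw.trans hxy.le) (by omega)
  have c := R.r1 _ _ _ _ _ _ hρ (S.base y x hxy) (by omega)
  ext
  exact KC (ρ : G) (g x) (g y) _ _ rfl rfl (commute_of_cj (R.fixS s1 le_rfl))
    (commute_of_cj (R.fixS s1 hxy.le)) (commute_of_cj (R.fixS s2 le_rfl))
    (c.map (commutator G).subtype)

theorem claimA (R : Rel g L n) (F : Fro L) {π : commutator G →* A} (hO : Om g L π) {y : X}
    {c : commutator G} (hc : S g 2 y c) (ha : L (π c) ≠ 1) : Good g L n π (π c) := by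
  have hn := R.hn
  obtain ⟨-, y', t, ht, hat⟩ := hO
  have key : ∀ k w s, S g k w s → k ≤ n - 2 → π s ∉ Fx (π c) → k + 3 = n := by
    intro k w s hs hk hnf
    have h := R.r3 π k 2 3 w y y' s c t hs hc ht ha hat (by omega) hnf
    by_contra hne
    rcases Nat.even_or_odd' (n - k - 2) with ⟨i, hi | hi⟩
    · exact h i 0 (by omega)
    · exact h (i - 1) 1 (by omega)
  have htc : π t ∈ Fx (π c) := by
    by_contra hnf
    have := key 3 y' t ht (by omega) hnf
    omega
  refine ⟨ha, fun h hh => H_le (K := (Fx (π c)).comap π) ?_ hh⟩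
  intro k hk w s hs
  by_contra hnf
  have e := key k w s hs hk hnf
  exact hnf (F.tr htc hat ((R.r1 _ _ _ _ _ _ ht hs (by omega)).map π))

theorem good_of (R : Rel g L n) (F : Fro L) {π : commutator G →* A} (hO : Om g L π) {k : ℕ}
    {h : commutator G} (hh : h ∈ H g k) (hk : k + 2 ≤ n) (hah : L (π h) ≠ 1) {a : A} (ha : L a ≠ 1)
    (hf : π h ∈ Fx a) : Good g L n π a := by
  obtain ⟨y, c, hc, hac⟩ := hO.1
  have G1 := claimA R F hO hc hac
  have h1 : π c ∈ Fx a := F.tr hf hah (Commute.symm (G1.mem hh hk))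
  exact ⟨ha, fun s hs => F.tr h1 hac (G1.2 s hs)⟩

theorem om_of {π : commutator G →* A} {y x : X} {c : commutator G} (hc : S g 2 y c)
    (ha : L (π c) ≠ 1) (hl : y ≤ x) (hne : L (π (cj (g x) c)) ≠ L (π c)) : Om g L π := by
  refine ⟨⟨y, c, hc, ha⟩, x, br c (g x), S.step 2 y c x hc hl, ?_⟩
  intro h
  apply hne
  rw [cj_eq, map_mul, map_mul, h, mul_one]

theorem not_om [Finite X] {π : commutator G →* A} (hO : ¬ Om g L π) {y : X} {c : commutator G}
    (hc : S g 2 y c) (ha : L (π c) ≠ 1) :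
    (∀ y t, S g 3 y t → L (π t) = 1) ∧
      ∀ x y' c', S g 2 y' c' → L (π (cj (g x) c')) = L (π c') := by
  have h3 : ∀ y t, S g 3 y t → L (π t) = 1 := by
    intro y' t ht
    by_contra hne
    exact hO ⟨⟨y, c, hc, ha⟩, y', t, ht, hne⟩
  exact ⟨h3, fun x y' c' hc' => lin_inv 2 (L.comp π) h3 x y' c' hc'⟩

/-- iterated bracket -/
def brp (h : commutator G) (a : G) : ℕ → commutator G
  | 0 => h
  | j + 1 => br (brp h a j) a

theorem brp_S {w y : X} {k : ℕ} {c : commutator G} (hc : S g k w c) (hw : w ≤ y) (j : ℕ) :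
    ∃ w', w' ≤ y ∧ S g (k + j) w' (brp c (g y) j) := by
  induction j with
  | zero => exact ⟨w, hw, hc⟩
  | succ j ih =>
    obtain ⟨w', h1, h2⟩ := ih
    exact ⟨y, le_rfl, S.step _ w' _ y h2 h1⟩

theorem cj_br (u a : G) (h : commutator G) : cj u (br h a) = (cj u h)⁻¹ * cj (a * u) h := by
  rw [br, map_mul, map_inv, cj_cj]

end Pool.Agent.Lib.MP_841f14_al
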