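import Pool.Agent.Lib.MP_841f14_al.Gauge1

set_option linter.unusedSectionVars false

namespace Pool.Agent.Lib.MP_841f14_al

variable {G : Type*} [Group G] {X : Type*} {A : Type*} [Group A] {C : Type*} [CommGroup C]
variable [LinearOrder X] [Finite X] {g : X → G} {L : A →* C} {n : ℕ}

theorem pow_of_sq {μ : C} (h : μ * μ = 1) (k : ℕ) : μ ^ (2 * k + 1) = μ := by
  rw [pow_succ, pow_mul, pow_two, h]; simp

theorem choose_odd2 (k : ℕ) : ∃ r, (4 * k + 2).choose 2 = 2 * r + 1 := by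
  refine ⟨4 * k * k + 3 * k, ?_⟩
  rw [Nat.choose_two_right, show 4 * k + 2 - 1 = 4 * k + 1 by omega,
    show (4 * k + 2) * (4 * k + 1) = (2 * (4 * k * k + 3 * k) + 1) * 2 by ring]
  simp

theorem choose_odd2' (k : ℕ) : ∃ r, (4 * k + 3).choose 2 = 2 * r + 1 := by
  refine ⟨4 * k * k + 5 * k + 1, ?_⟩
  rw [Nat.choose_two_right, show 4 * k + 3 - 1 = 4 * k + 2 by omega,
    show (4 * k + 3) * (4 * k + 2) = (2 * (4 * k * k + 5 * k + 1) + 1) * 2 by ring]
  simp

theorem choose_odd3 (k : ℕ) : ∃ r, (4 * k + 3).choose 3 = 2 * r + 1 := by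
  obtain ⟨r, hr⟩ := choose_odd2 k
  have h := Nat.add_one_mul_choose_eq (4 * k + 2) 2
  rw [hr] at h
  rcases Nat.even_or_odd' ((4 * k + 3).choose 3) with ⟨i, hi | hi⟩
  · exfalso
    have h' : (4 * k + 2 + 1) * (2 * r + 1) = (4 * k + 3).choose 3 * 3 := h
    rw [hi] at h'
    have : (4 * k + 2 + 1) * (2 * r + 1) = 2 * (4 * k * r + 3 * r + 2 * k + 1) + 1 := by ring
    omega
  · exact ⟨i, hi⟩

theorem column (R : Rel g L n) (F : Fro L) {π : commutator G →* A} {a : A} (hG : Good g L n π a)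
    {w y : X} {c0 : commutator G} (hc0 : S g 2 w c0) (hw : w ≤ y) (ha0 : L (π c0) ≠ 1)
    (hα : L (π (cj (g y) c0)) = 1) (hβ : ∀ w c, S g 2 w c → L (π (cj (g y)⁻¹ c)) = 1)
    {w' : X} {c : commutator G} (hc : S g 2 w' c) (hγ : π (cj (g y)⁻¹ c) ≠ 1) :
    Good g L n (pos π (g y ^ 2)) a ∧ L (π (cj (g y ^ 2) c0)) ≠ 1 := by
  have hn := R.hn
  set Y := g y with hY
  have step1 : ∀ k, k + 4 ≤ n → ∀ w c', S g 2 w c' → L (π (cj (Y ^ (k + 1))⁻¹ c')) = 1 := by
    intro k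
    induction k with
    | zero => intro _ w c' h; simpa using hβ w c' h
    | succ k ih =>
      intro hk w c' hc'
      by_contra hne
      by_cases hO : Om g L (pos π (Y ^ (k + 1 + 1))⁻¹)
      · have G1 := claimA R F hO hc' hne
        have h1 := G1.mem (cj_pow_mem_H y (hc.mem_H le_rfl) (k + 1)) (by omega)
        have e : pos π (Y ^ (k + 1 + 1))⁻¹ (cj (g y ^ (k + 1)) c) = π (cj Y⁻¹ c) := by
          rw [pos_apply, cj_cj]; congr 2; rw [← hY]; group
        rw [e] at h1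
        exact hγ (F.triv hne h1 (hβ _ _ hc))
      · have h1 := (not_om hO hc' hne).2 y w c' hc'
        rw [pos_apply, cj_cj, show g y * (Y ^ (k + 1 + 1))⁻¹ = (Y ^ (k + 1))⁻¹ by rw [← hY]; group,
          ih (by omega) w c' hc'] at h1
        exact hne h1.symm
  obtain ⟨e, rfl⟩ : ∃ e, n = e + 4 := ⟨n - 4, by omega⟩
  set μ := L (π c0) with hμ
  have hT := newton (fun j i => L (π (cj (Y ^ i * (Y ^ (e + 1))⁻¹) (brp c0 Y j)))) (e + 1) μ
    (by
      intro j i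
      simp only [brp, cj_br, map_mul, map_inv]
      rw [show Y * (Y ^ i * (Y ^ (e + 1))⁻¹) = Y ^ (i + 1) * (Y ^ (e + 1))⁻¹ by group])
    (by
      intro i
      obtain ⟨w', -, h⟩ := brp_S hc0 hw (e + 1 + 1)
      rw [R.r0 w' (brp c0 Y (e + 1 + 1)) (by rw [show e + 4 = 2 + (e + 1 + 1) by omega]; exact h)]
      simp)
    (by
      intro i hi
      obtain ⟨k, rfl⟩ : ∃ k, e = i + k := ⟨e - i, by omega⟩
      simp only [brp]
      rw [show Y ^ i * (Y ^ (i + k + 1))⁻¹ = (Y ^ (k + 1))⁻¹ by group]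
      exact step1 k (by omega) w c0 hc0)
    (by simp [brp, hμ])
  have hm1 : ∀ k j, j + k = e + 1 → L (pos π Y⁻¹ (brp c0 Y j)) = μ ^ e.choose k := by
    intro k j h
    rw [← hT k j h e, pos_apply, show Y ^ e * (Y ^ (e + 1))⁻¹ = Y⁻¹ by group]
  have h1 : μ ^ (e + 2) = 1 := by
    have := hT (e + 1) 0 (by omega) (e + 2)
    simp only [brp] at this
    rw [show Y ^ (e + 2) * (Y ^ (e + 1))⁻¹ = Y by group, hα, Nat.choose_succ_self_right] at this
    exact this.symm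
  have h2 : μ ^ e = 1 := by
    by_contra hne
    obtain ⟨w', -, h⟩ := brp_S hc0 hw e
    have := hm1 1 e rfl
    rw [Nat.choose_one_right] at this
    exact hγ (R.T0 F (pos π Y⁻¹) hc h (by rw [this]; exact hne) (hβ _ _ hc) 1 (by omega))
  have h3 : μ * μ = 1 := by rw [pow_add, h2, one_mul, pow_two] at h1; exact h1
  rcases Nat.even_or_odd' e with ⟨i, hi | hi⟩
  swap
  · rw [hi, pow_of_sq h3] at h2; exact absurd h2 ha0
  rcases Nat.even_or_odd' i with ⟨k, hk | hk⟩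
  · have he : e = 4 * k := by omega
    have f2 : L (π (cj (Y ^ 2) c0)) = μ := by
      have := hT (e + 1) 0 (by omega) (e + 3)
      simp only [brp] at this
      rw [show Y ^ (e + 3) * (Y ^ (e + 1))⁻¹ = Y ^ 2 by group] at this
      obtain ⟨r, hr⟩ := choose_odd2' k
      rw [this, ← Nat.choose_symm (by omega), show e + 3 - (e + 1) = 2 by omega, he, hr,
        pow_of_sq h3]
    have f3 : L (π (cj (Y ^ 2) (br c0 Y))) = μ := by
      have := hT e 1 (by omega) (e + 3)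
      simp only [brp] at this
      rw [show Y ^ (e + 3) * (Y ^ (e + 1))⁻¹ = Y ^ 2 by group] at this
      obtain ⟨r, hr⟩ := choose_odd3 k
      rw [this, ← Nat.choose_symm (by omega), show e + 3 - e = 3 by omega, he, hr,
        pow_of_sq h3]
    have hO : Om g L (pos π (Y ^ 2)) :=
      ⟨⟨w, c0, hc0, by rw [pos_apply, f2]; exact ha0⟩,
        y, br c0 Y, S.step 2 w c0 y hc0 hw, by rw [pos_apply, f3]; exact ha0⟩
    refine ⟨good_of R F hO (hc0.mem_H le_rfl) (by omega) (by rw [pos_apply, f2]; exact ha0) hG.1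
      (hG.mem (cj_pow_mem_H y (hc0.mem_H le_rfl) 2) (by omega)), by rw [f2]; exact ha0⟩
  · exfalso
    have he : e = 4 * k + 2 := by omega
    obtain ⟨w3, -, s3⟩ := brp_S hc0 hw 1
    obtain ⟨w5, -, s5⟩ := brp_S hc0 hw 3
    have f3 : L (pos π Y⁻¹ (brp c0 Y 1)) = μ := by
      rw [hm1 e 1 (by omega)]; simp
    have f5 : L (pos π Y⁻¹ (brp c0 Y 3)) = μ := by
      obtain ⟨r, hr⟩ := choose_odd2 k
      rw [hm1 (e - 2) 3 (by omega), Nat.choose_symm (by omega), he, hr, pow_of_sq h3]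
    have hex : ∃ i j, 2 + i * (2 + 1) + j * (2 + 3) = e + 4 := by
      have : (e + 2) % 3 = 0 ∨ (e + 2) % 3 = 1 ∨ (e + 2) % 3 = 2 := by omega
      rcases this with h | h | h
      · exact ⟨(e + 2) / 3, 0, by omega⟩
      · exact ⟨(e + 2) / 3 - 3, 2, by omega⟩
      · exact ⟨(e + 2) / 3 - 1, 1, by omega⟩
    obtain ⟨i, j, hij⟩ := hex
    exact hγ (R.T1 F (pos π Y⁻¹) hc s3 s5 (by rw [f3]; exact ha0) (by rw [f5]; exact ha0)
      (by omega) (hβ _ _ hc) i j hij)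

theorem cj_pow_top (R : Rel g L n) {x y : X} {ρ : commutator G} (hρ : S g (n - 2) x ρ) (hxy : x ≤ y)
    (k : ℕ) : cj (g y ^ k) ρ = ρ * (br ρ (g y)) ^ k := by
  have hn := R.hn
  have hs : cj (g y) (br ρ (g y)) = br ρ (g y) := R.fixS (hρ.step' hxy (by omega)) le_rfl
  induction k with
  | zero => simp
  | succ k ih => rw [pow_succ, ← cj_cj, ih, map_mul, map_pow, hs, cj_eq, pow_succ', mul_assoc]

theorem cj_inv_top (R : Rel g L n) {x y : X} {ρ : commutator G} (hρ : S g (n - 2) x ρ)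
    (hxy : x ≤ y) : cj (g y)⁻¹ ρ = ρ * (br ρ (g y))⁻¹ := by
  have hn := R.hn
  have hs : cj (g y) (br ρ (g y)) = br ρ (g y) := R.fixS (hρ.step' hxy (by omega)) le_rfl
  have : cj (g y)⁻¹ (br ρ (g y)) = br ρ (g y) := by
    conv_lhs => rw [← hs]
    rw [cj_cj]; simp
  rw [cj_inv_eq, this]

theorem B0 (R : Rel g L n) (F : Fro L) {π : commutator G →* A} {a : A} (hG : Good g L n π a)
    {y w : X} {s c : commutator G} (hs : S g (n - 1) y s) (hσ : π s ∉ Fx a) (hc : S g 2 w c)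
    (hw : y ≤ w) : π c = 1 := by
  have hn := R.hn
  refine F.kill hG.1 (hG.mem (hc.mem_H le_rfl) (by omega)) ?_ hσ
  obtain ⟨z, hz, rfl⟩ := hc.inv_two
  have c1 := commute_of_cj (R.fixS hs hw)
  have c2 := commute_of_cj (R.fixS hs (hw.trans hz.le))
  refine Commute.map (f := π) ?_
  have : Commute (s : G) (cc (g z) (g w) : G) :=
    ((c2.inv_right.mul_right c1.inv_right).mul_right c2).mul_right c1
  exact Subtype.ext this.symm.eq

theorem B1 (R : Rel g L n) (F : Fro L) {π : commutator G →* A} {a : A} (hG : Good g L n π a)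
    {x y w : X} {ρ c : commutator G} (hρ : S g (n - 2) x ρ) (hσ : π (br ρ (g y)) ∉ Fx a)
    (hc : S g 2 w c) : π (cj (g y) c) = 1 := by
  have hn := R.hn
  refine F.kill hG.1 (hG.mem (cj_mem_H 2 y c (hc.mem_H le_rfl)) (by omega))
    (((R.r1 _ _ _ _ _ _ hc hρ (by omega)).map (cj (g y))).map π) ?_
  rw [cj_eq, map_mul, mul_mem_cancel_left (hG.mem (hρ.mem_H le_rfl) (by omega))]
  exact hσ

theorem caseYY (R : Rel g L n) (F : Fro L) {π : commutator G →* A} {a : A} (hG : Good g L n π a)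
    {w w0 y : X} {c0 θ : commutator G} (hc0 : S g 2 w0 c0) (ha0 : L (π c0) ≠ 1)
    (hθ : S g (n - 3) w θ) (hw : w ≤ y) : π (br (br θ (g y)) (g y)) ∈ Fx a := by
  have hn := R.hn
  by_contra hσ
  set Y := g y with hY
  have hρ : S g (n - 2) y (br θ Y) := hθ.step' hw (by omega)
  have hs : S g (n - 1) y (br (br θ Y) Y) := hρ.step' le_rfl (by omega)
  have fρ : π (br θ Y) ∈ Fx a := hG.mem (hρ.mem_H le_rfl) (by omega)
  have fc0 : π c0 ∈ Fx a := hG.mem (hc0.mem_H le_rfl) (by omega)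
  have I0 : ¬ Good g L n (pos π (Y ^ 2)) a := by
    intro G2
    apply hσ
    have e : br (br θ Y) Y = (br θ Y)⁻¹ * ((cj Y θ)⁻¹ * cj (Y ^ 2) θ) := by
      rw [br, cj_br, pow_two]
    rw [e, map_mul, map_mul, map_inv, map_inv]
    exact mul_mem (inv_mem fρ) (mul_mem (inv_mem (hG.mem (cj_mem_H _ y θ (hθ.mem_H le_rfl))
      (by omega))) (G2.mem (hθ.mem_H le_rfl) (by omega)))
  have hw0 : w0 ≤ y := by
    by_contra h
    exact ha0 (by rw [B0 R F hG hs hσ hc0 (le_of_lt (not_le.1 h)), map_one])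
  have b1 : ∀ w c, S g 2 w c → π (cj Y c) = 1 := fun w c hc => B1 R F hG hρ hσ hc
  have nρ : pos π Y⁻¹ (br θ Y) ∉ Fx a := by
    rw [pos_apply, cj_inv_top R hρ le_rfl, map_mul, mul_mem_cancel_left fρ, map_inv, inv_mem_iff]
    exact hσ
  have ec : pos π Y⁻¹ (cj Y c0) = π c0 := by rw [pos_apply, cj_cj]; simp
  have s3 : S g 3 y (br c0 Y) := S.step 2 w0 c0 y hc0 hw0
  have nO : ¬ Om g L (pos π Y⁻¹) := by
    intro hO
    have G1 := good_of R F hO (cj_mem_H 2 y c0 (hc0.mem_H le_rfl)) (by omega)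
      (by rw [ec]; exact ha0) hG.1 (by rw [ec]; exact fc0)
    exact nρ (G1.mem (hρ.mem_H le_rfl) (by omega))
  by_cases hact : ∀ w c, S g 2 w c → L (π (cj Y⁻¹ c)) = 1
  · by_cases h1 : π (cj Y⁻¹ c0) = 1
    · have e : pos π Y⁻¹ (br c0 Y) = π c0 := by rw [br, map_mul, map_inv, ec, pos_apply, h1]; simp
      have c1 := (R.r1 _ _ _ _ _ _ s3 hθ (by omega)).map (pos π Y⁻¹)
      rw [e] at c1
      have f1 := F.tr fc0 ha0 c1
      apply nρ
      rw [br, map_mul, map_inv]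
      refine mul_mem (inv_mem f1) ?_
      rw [pos_apply, cj_cj, mul_inv_cancel, cj_one]
      exact hG.mem (hθ.mem_H le_rfl) (by omega)
    · exact I0 (column R F hG hc0 hw0 ha0 (by rw [b1 _ _ hc0, map_one]) hact hc0 h1).1
  · push Not at hact
    obtain ⟨w1, c1, hc1, hac1⟩ := hact
    obtain ⟨i3, hinv⟩ := not_om nO hc1 hac1
    have eμ : L (pos π Y⁻¹ c0) = L (π c0) := by rw [← hinv y w0 c0 hc0, ec]
    have hg1 : L (pos π Y⁻¹ c0) ≠ 1 := by rw [eμ]; exact ha0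
    set g1 := pos π Y⁻¹ c0 with hg1d
    set t := pos π Y⁻¹ (br c0 Y) with ht
    have et : π c0 = g1 * t := by rw [ht, br, map_mul, map_inv, ec]; simp [hg1d]
    have lt1 : L t = 1 := i3 y _ s3
    have t1 : t ≠ 1 := by
      intro h
      rw [h, mul_one] at et
      exact nρ (F.tr fc0 ha0 (by
        rw [et]; exact (R.r1 _ _ _ _ _ _ hc0 hρ (by omega)).map (pos π Y⁻¹)))
    rcases Nat.even_or_odd' n with ⟨k, hk | hk⟩
    swap
    · exact t1 (R.T0 F (pos π Y⁻¹) s3 hc0 hg1 lt1 (k - 1) (by omega))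
    have s4 : S g 4 y (br (br c0 Y) Y) := S.step 3 y _ y s3 le_rfl
    have s5 : S g 5 y (br (br (br c0 Y) Y) Y) := S.step 4 y _ y s4 le_rfl
    have i5 : L (pos π Y⁻¹ (br (br (br c0 Y) Y) Y)) = 1 := by
      by_contra hne
      exact t1 (R.T1 F (pos π Y⁻¹) s3 hc0 s5 hg1 hne (by omega) lt1 (k - 4) 1 (by omega))
    have f4 := R.P0 (pos π Y⁻¹) s4 hc0 hg1 (k - 3) (by omega)
    have shift : ∀ h, pos π Y⁻¹ (cj Y h) = π h := by intro h; rw [pos_apply, cj_cj]; simp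
    have e4 : pos π Y⁻¹ (br (br c0 Y) Y) = t⁻¹ * (π c0)⁻¹ := by
      rw [br, map_mul, map_inv, shift, ← ht, br, map_mul, map_inv, b1 _ _ hc0, mul_one]
    have tt : t * t = 1 := by
      refine F.triv hg1 ?_ (by rw [map_mul, lt1, mul_one])
      rw [e4, et] at f4
      have : t * t = g1⁻¹ * (t⁻¹ * (g1 * t)⁻¹)⁻¹ := by simp [mul_assoc]
      rw [this]
      exact mul_mem (inv_mem (Commute.refl g1)) (inv_mem f4)
    have hμ2 : L (π c0) * L (π c0) ≠ 1 := fun h => ha0 (F.char2 lt1 t1 tt h)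
    have f2 : L (π (cj (Y ^ 2) c0)) ≠ 1 := by
      intro h
      apply hμ2
      rw [br, map_mul, map_inv, e4, shift, br, cj_br, br, ← pow_two] at i5
      simp only [map_mul, map_inv, b1 _ _ hc0, h, lt1, map_one] at i5
      simpa using i5
    have m2 : π (cj (Y ^ 2) c0) ∈ Fx a :=
      hG.mem (cj_pow_mem_H y (hc0.mem_H le_rfl) 2) (by omega)
    have m3 : π (cj (Y ^ 3) c0) ∈ Fx a :=
      hG.mem (cj_pow_mem_H y (hc0.mem_H le_rfl) 3) (by omega)
    have cρ := R.r1 _ _ _ _ _ _ hc0 hρ (by omega)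
    have q2 := F.tr m2 f2 ((cρ.map (cj (Y ^ 2))).map π)
    rw [cj_pow_top R hρ le_rfl] at q2
    have q3 : π (cj (Y ^ 3) (br θ Y)) ∉ Fx a := by
      rw [cj_pow_top R hρ le_rfl, pow_succ, ← mul_assoc, map_mul, mul_mem_cancel_left q2]
      exact hσ
    have z3 := F.kill hG.1 m3 ((cρ.map (cj (Y ^ 3))).map π) q3
    have hO : Om g L (pos π (Y ^ 2)) := by
      refine om_of hc0 f2 hw0 ?_
      rw [pos_apply, cj_cj, ← hY, ← pow_succ', z3, map_one]
      exact f2.symm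
    exact I0 (good_of R F hO (hc0.mem_H le_rfl) (by omega) f2 hG.1 m2)

end Pool.Agent.Lib.MP_841f14_al
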