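import Pool.Agent.Lib.MP_841f14_al.Gauge2

set_option linter.unusedSectionVars false

namespace Pool.Agent.Lib.MP_841f14_al

variable {G : Type*} [Group G] {X : Type*} {A : Type*} [Group A] {C : Type*} [CommGroup C]
variable [LinearOrder X] [Finite X] {g : X → G} {L : A →* C} {n : ℕ}

structure Bad (g : X → G) (L : A →* C) (n : ℕ) (π : commutator G →* A) (a : A)
    (θ : commutator G) (w x y : X) : Prop where
  hG : Good g L n π a
  hθ : S g (n - 3) w θ
  hw : w ≤ x
  hxy : x < y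
  hσ : π (br (br θ (g x)) (g y)) ∉ Fx a
  hσ' : π (br (br θ (g x)) (g x)) ∈ Fx a

theorem L_swap (π : commutator G →* A) (a b : G) (h : commutator G) :
    L (π (cj (b * a) h)) = L (π (cj (a * b) h)) := by
  rw [cj_swap]
  simp [mul_comm]

namespace Bad
variable {π : commutator G →* A} {a : A} {θ : commutator G} {w x y : X}
  (R : Rel g L n) (F : Fro L) (B : Bad g L n π a θ w x y)
include R F B

theorem hρ : S g (n - 2) x (br θ (g x)) := B.hθ.step' B.hw (by have := R.hn; omega)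

theorem hs : S g (n - 1) y (br (br θ (g x)) (g y)) :=
  (B.hρ R F).step' B.hxy.le (by have := R.hn; omega)

theorem hs' : S g (n - 1) x (br (br θ (g x)) (g x)) :=
  (B.hρ R F).step' le_rfl (by have := R.hn; omega)

theorem fρ : π (br θ (g x)) ∈ Fx a :=
  B.hG.mem ((B.hρ R F).mem_H le_rfl) (by have := R.hn; omega)

theorem e_triv : π (cc (g y) (g x)) = 1 := by
  have hn := R.hn
  refine F.kill B.hG.1 (B.hG.mem ((S.base y x B.hxy).mem_H le_rfl) (by omega)) ?_ B.hσ
  refine Commute.map (f := π) ?_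
  have k := congrArg Subtype.val (R.KCD (B.hρ R F) le_rfl B.hxy)
  have c1 := commute_of_cj (R.fixS (B.hs R F) le_rfl)
  have c2 := commute_of_cj (R.fixS (B.hs' R F) le_rfl)
  have c3 := commute_of_cj (R.fixS (B.hs' R F) B.hxy.le)
  rw [cj_coe, Subgroup.coe_mul, Subgroup.coe_mul, Subgroup.coe_inv] at k
  generalize (br (br θ (g x)) (g y)) = s at *
  generalize (br (br θ (g x)) (g x)) = s' at *
  have c4 : Commute (s : G) (g x * (s' : G)⁻¹) := by
    show (s : G) * (g x * (s' : G)⁻¹) = (g x * (s' : G)⁻¹) * s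
    calc (s : G) * (g x * (s' : G)⁻¹) = g x * ((g x)⁻¹ * s * g x) * (s' : G)⁻¹ := by group
      _ = g x * ((s' : G)⁻¹ * s * s') * (s' : G)⁻¹ := by rw [k]
      _ = _ := by group
  have c5 := ((c1.inv_right.mul_right c4.inv_right).mul_right c1).mul_right c4
  have c6 := ((c3.inv_right.mul_right c2.inv_right).mul_right c3).mul_right c2
  have e : (g y)⁻¹ * (g x * (s' : G)⁻¹)⁻¹ * g y * (g x * (s' : G)⁻¹) =
      (g y)⁻¹ * (g x)⁻¹ * g y * g x := by
    calc (g y)⁻¹ * (g x * (s' : G)⁻¹)⁻¹ * g y * (g x * (s' : G)⁻¹)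
        = ((g y)⁻¹ * s') * ((g x)⁻¹ * g y * g x) * (s' : G)⁻¹ := by group
      _ = ((s' : G) * (g y)⁻¹) * ((g x)⁻¹ * g y * g x) * (s' : G)⁻¹ := by rw [c3.inv_right.eq]
      _ = ((s' : G) * ((g y)⁻¹ * (g x)⁻¹ * g y * g x)) * (s' : G)⁻¹ := by group
      _ = _ := by rw [c6.eq]; group
  rw [e] at c5
  exact Subtype.ext c5.symm.eq

theorem IIa {w' : X} {c : commutator G} (hc : S g 2 w' c) : π (cj (g y) c) = 1 :=
  B1 R F B.hG (B.hρ R F) B.hσ hc

theorem IIb {w' : X} {c : commutator G} (hc : S g 2 w' c) : π (cj (g x * g y) c) = 1 := by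
  have hn := R.hn
  refine F.kill B.hG.1 ?_
    (((R.r1 _ _ _ _ _ _ hc (B.hρ R F) (by omega)).map (cj (g x * g y))).map π) ?_
  · rw [← cj_cj]
    exact B.hG.mem (cj_mem_H _ y _ (cj_mem_H 2 x c (hc.mem_H le_rfl))) (by omega)
  · rw [← cj_cj, cj_eq (g x), map_mul (cj _), R.fixS (B.hs' R F) B.hxy.le, cj_eq (g y), map_mul,
      map_mul, mul_mem_cancel_right B.hσ', mul_mem_cancel_left (B.fρ R F)]
    exact B.hσ

theorem IIc {w' : X} {c : commutator G} (hc : S g 2 w' c) : π (cj (g x) c) = 1 := by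
  have hn := R.hn
  have m := B.hG.mem (cj_mem_H 2 x c (hc.mem_H le_rfl)) (by omega)
  refine F.triv B.hG.1 m ?_
  by_contra hne
  by_cases hO : Om g L (pos π (g x))
  · have G1 := good_of R F hO (hc.mem_H le_rfl) (by omega) hne B.hG.1 m
    have h1 := G1.mem (cj_mem_H _ y θ (B.hθ.mem_H le_rfl)) (by omega)
    rw [pos_apply, cj_cj, cj_swap, map_mul, map_mul, map_inv, B.e_triv R F, inv_one, one_mul,
      mul_one, ← cj_cj, cj_eq (g x), map_mul (cj _), cj_eq (g y) (br θ (g x)), map_mul, map_mul,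
      mul_mem_cancel_left (B.hG.mem (cj_mem_H _ y θ (B.hθ.mem_H le_rfl)) (by omega)),
      mul_mem_cancel_left (B.fρ R F)] at h1
    exact B.hσ h1
  · have h1 := (not_om hO hc hne).2 y w' c hc
    rw [pos_apply, cj_cj, L_swap, B.IIb R F hc, map_one] at h1
    exact hne h1.symm

theorem NF1 : π (cj ((g x)⁻¹ * g y) θ) ∉ Fx a := by
  have hn := R.hn
  rw [← cj_cj, cj_inv_eq, cj_inv_top R (B.hρ R F) le_rfl]
  simp only [map_mul, map_inv]
  rw [R.fixS (B.hs' R F) B.hxy.le, cj_eq (g y) (br θ (g x)), map_mul,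
    mul_mem_cancel_left (B.hG.mem (cj_mem_H _ y θ (B.hθ.mem_H le_rfl)) (by omega)), inv_mem_iff,
    mul_mem_cancel_right (inv_mem B.hσ'), mul_mem_cancel_left (B.fρ R F)]
  exact B.hσ

/-- the final contradiction at the position `x⁻¹ y` -/
theorem fin_pos {w0 : X} {c0 : commutator G} (hc0 : S g 2 w0 c0) (hw0 : w0 ≤ x)
    (he : π (cj (g x)⁻¹ (cc (g y) (g x))) = 1)
    (h1 : L (π (cj (g y * (g x)⁻¹) c0)) ≠ 1) (h2 : π (cj (g y * (g x)⁻¹) c0) ∈ Fx a) : False := by
  have hn := R.hn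
  have e : π (cj (g y * (g x)⁻¹) c0) = pos π ((g x)⁻¹ * g y) c0 := by
    rw [cj_swap, cc_inv, map_mul, map_mul, map_inv, map_inv, he]; simp
  rw [e] at h1 h2
  have hO : Om g L (pos π ((g x)⁻¹ * g y)) := by
    refine om_of hc0 h1 hw0 ?_
    rw [pos_apply, cj_cj, mul_inv_cancel_left, B.IIa R F hc0, map_one]
    exact h1.symm
  exact B.NF1 R F ((good_of R F hO (hc0.mem_H le_rfl) (by omega) h1 B.hG.1 h2).mem
    (B.hθ.mem_H le_rfl) (by omega))

theorem IIe {w0 : X} {c0 : commutator G} (hc0 : S g 2 w0 c0) (hw0 : w0 ≤ x)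
    (ha0 : L (π c0) ≠ 1) {w' : X} {c : commutator G} (hc : S g 2 w' c) :
    L (π (cj (g x)⁻¹ c)) = 1 := by
  have hn := R.hn
  by_contra hne
  have fc0 : π c0 ∈ Fx a := B.hG.mem (hc0.mem_H le_rfl) (by omega)
  have shift : ∀ h, pos π (g x)⁻¹ (cj (g x) h) = π h := by intro h; rw [pos_apply, cj_cj]; simp
  have se := S.base (g := g) y x B.hxy
  have nO : ¬ Om g L (pos π (g x)⁻¹) := by
    intro hO
    have G1 := good_of R F hO (cj_mem_H 2 x c0 (hc0.mem_H le_rfl)) (by omega)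
      (by rw [shift]; exact ha0) B.hG.1 (by rw [shift]; exact fc0)
    have h1 := G1.mem (cj_mem_H _ y θ (B.hθ.mem_H le_rfl)) (by omega)
    have h2 := G1.mem (se.mem_H le_rfl) (by omega)
    rw [pos_apply] at h2
    rw [pos_apply, cj_cj, cj_swap, cc_inv, map_mul, map_mul, map_inv, map_inv,
      mul_mem_cancel_right (inv_mem h2), mul_mem_cancel_left (inv_mem (inv_mem h2))] at h1
    exact B.NF1 R F h1
  obtain ⟨i3, hinv⟩ := not_om nO hc hne
  have eμ : L (pos π (g x)⁻¹ c0) = L (π c0) := by rw [← hinv x w0 c0 hc0, shift]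
  have hg1 : L (pos π (g x)⁻¹ c0) ≠ 1 := by rw [eμ]; exact ha0
  have le : L (pos π (g x)⁻¹ (cc (g y) (g x))) = 1 := by
    rw [← hinv x x _ se, shift, B.e_triv R F, map_one]
  have s3x : S g 3 x (br c0 (g x)) := S.step 2 w0 c0 x hc0 hw0
  have s3y : S g 3 y (br c0 (g y)) := S.step 2 w0 c0 y hc0 (hw0.trans B.hxy.le)
  set g1 := pos π (g x)⁻¹ c0 with hg1d
  set t1 := pos π (g x)⁻¹ (br c0 (g x)) with ht1
  set t2 := pos π (g x)⁻¹ (br c0 (g y)) with ht2
  have et1 : π c0 = g1 * t1 := by rw [ht1, br, map_mul, map_inv, shift]; simp [hg1d]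
  have et2 : π (cj (g y * (g x)⁻¹) c0) = g1 * t2 := by
    rw [ht2, br, map_mul, map_inv, pos_apply π _ (cj _ _), cj_cj]; simp [hg1d]
  have lt1 : L t1 = 1 := i3 x _ s3x
  have lt2 : L t2 = 1 := i3 y _ s3y
  have key : pos π (g x)⁻¹ (cc (g y) (g x)) = 1 ∧ t2 = t1 := by
    rcases Nat.even_or_odd' n with ⟨k, hk | hk⟩
    · have e1 : pos π (g x)⁻¹ (cc (g y) (g x)) = 1 :=
        F.triv hg1 (R.P0 (pos π (g x)⁻¹) se hc0 hg1 (k - 2) (by omega)) le
      refine ⟨e1, ?_⟩
      have f4x := R.P0 (pos π (g x)⁻¹) (S.step 3 x _ x s3x le_rfl) hc0 hg1 (k - 3) (by omega)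
      have f4y := R.P0 (pos π (g x)⁻¹) (S.step 3 x _ y s3x B.hxy.le) hc0 hg1 (k - 3) (by omega)
      have e4x : pos π (g x)⁻¹ (br (br c0 (g x)) (g x)) = t1⁻¹ * (g1 * t1)⁻¹ := by
        rw [br, map_mul, map_inv, shift, ← ht1, br, map_mul, map_inv, B.IIc R F hc0, mul_one, et1]
      have e4y : pos π (g x)⁻¹ (br (br c0 (g x)) (g y)) = t1⁻¹ * (g1 * t2)⁻¹ := by
        rw [br, map_mul, map_inv, ← ht1, pos_apply, cj_cj, cj_br, map_mul, map_inv, et2]
        have : cj (g x * (g y * (g x)⁻¹)) c0 =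
            (cc (g y) (g x)⁻¹)⁻¹ * cj (g y) c0 * cc (g y) (g x)⁻¹ := by
          ext; simp; group
        rw [this, map_mul, map_mul, B.IIa R F hc0]
        simp
      rw [e4x] at f4x
      rw [e4y] at f4y
      have tt : t1 * t1 = 1 := by
        refine F.triv hg1 ?_ (by rw [map_mul, lt1, mul_one])
        have : t1 * t1 = g1⁻¹ * (t1⁻¹ * (g1 * t1)⁻¹)⁻¹ := by simp [mul_assoc]
        rw [this]
        exact mul_mem (inv_mem (Commute.refl g1)) (inv_mem f4x)
      have tt' : t2 * t1 = 1 := by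
        refine F.triv hg1 ?_ (by rw [map_mul, lt1, lt2, mul_one])
        have : t2 * t1 = g1⁻¹ * (t1⁻¹ * (g1 * t2)⁻¹)⁻¹ := by simp [mul_assoc]
        rw [this]
        exact mul_mem (inv_mem (Commute.refl g1)) (inv_mem f4y)
      exact mul_right_cancel (tt'.trans tt.symm)
    · have z : ∀ w t, S g 3 w t → pos π (g x)⁻¹ t = 1 := fun w t ht =>
        R.T0 F (pos π (g x)⁻¹) ht hc0 hg1 (i3 w t ht) (k - 1) (by omega)
      refine ⟨?_, by rw [ht1, ht2, z _ _ s3x, z _ _ s3y]⟩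
      have := shift (cc (g y) (g x))
      rw [cj_eq, map_mul, z _ _ (S.step 2 x _ x se le_rfl), mul_one, B.e_triv R F] at this
      exact this
  rw [key.2, ← et1] at et2
  exact B.fin_pos R F hc0 hw0 key.1 (by rw [et2]; exact ha0) (by rw [et2]; exact fc0)

theorem IIg (hmin : ∀ b, x ≤ b → b < y → π (br (br θ (g x)) (g b)) ∈ Fx a) {p q : X} (hpq : q < p)
    (hact : L (π (cc (g p) (g q))) ≠ 1) : q < x := by
  have hn := R.hn
  by_contra hq
  have hq : x ≤ q := not_lt.1 hq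
  have hρ := B.hρ R F
  set ρ := br θ (g x) with hρd
  let sk : X → commutator G := fun k => if k < y then br ρ (g k) else 1
  have fk : ∀ k, x ≤ k → π (sk k) ∈ Fx a := by
    intro k hk
    by_cases h : k < y
    · simp only [sk, h, if_true]; exact hmin k hk h
    · simp only [sk, h, if_false, map_one]; exact one_mem _
  have ck : ∀ k, x ≤ k → Commute ((br ρ (g y) : commutator G) : G) (g k * (sk k : G)⁻¹) := by
    intro k hk
    apply commute_of_cj
    rw [← cj_cj]
    by_cases h : k < y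
    · simp only [sk, h, if_true]
      rw [R.KCD hρ hk h, ← Subgroup.coe_inv, cj_inner]; group
    · simp only [sk, h, if_false]
      rw [R.fixS (B.hs R F) (not_lt.1 h)]; simp [hρd]
  have d1 : cj (g p) (sk q) = sk q := by
    by_cases h : q < y
    · simp only [sk, h, if_true]
      exact R.fixS (hρ.step' hq (by omega)) hpq.le
    · simp only [sk, h, if_false, map_one]
  have d2 : cj (g q) (sk p) = (sk q)⁻¹ * sk p * sk q := by
    by_cases h : p < y
    · simp only [sk, h, hpq.trans h, if_true]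
      exact R.KCD hρ hq hpq
    · have : sk p = 1 := by simp only [sk, h, if_false]
      rw [this]; simp
  have c1 := ck p (hq.trans hpq.le)
  have c2 := ck q hq
  have c3 := ((c1.inv_right.mul_right c2.inv_right).mul_right c1).mul_right c2
  have e : cc (g p * (sk p : G)⁻¹) (g q * (sk q : G)⁻¹) =
      sk p * cj (g p) (sk q) * cc (g p) (g q) * (cj (g q) (sk p))⁻¹ * (sk q)⁻¹ := by
    ext; simp; group
  have c4 : Commute (cc (g p * (sk p : G)⁻¹) (g q * (sk q : G)⁻¹)) (br ρ (g y)) :=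
    Subtype.ext c3.symm.eq
  rw [e, d1, d2] at c4
  have fp := fk p (hq.trans hpq.le)
  have fq := fk q hq
  have fc := B.hG.mem ((S.base p q hpq).mem_H le_rfl) (by omega)
  refine B.hσ (F.tr ?_ ?_ (c4.map π))
  · simp only [map_mul, map_inv]
    exact mul_mem (mul_mem (mul_mem (mul_mem fp fq) fc)
      (inv_mem (mul_mem (mul_mem (inv_mem fq) fp) fq))) (inv_mem fq)
  · intro h
    apply hact
    rw [← h]
    simp only [map_mul, map_inv]
    apply Additive.ofMul.injective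
    simp only [ofMul_mul, ofMul_inv]
    abel

theorem shift2 (G2 : Good g L n (pos π (g x ^ 2)) a) : Bad g L n (pos π (g x ^ 2)) a θ w x y := by
  have f := R.fixS (B.hs' R F) le_rfl
  refine ⟨G2, B.hθ, B.hw, B.hxy, ?_, ?_⟩
  · rw [pos_apply, pow_two, ← cj_cj, R.KCD (B.hρ R F) le_rfl B.hxy, map_mul (cj _), map_mul (cj _),
      map_inv (cj (g x)), f, R.KCD (B.hρ R F) le_rfl B.hxy]
    simp only [map_mul, map_inv]
    rw [mul_mem_cancel_right B.hσ', mul_mem_cancel_left (inv_mem B.hσ'),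
      mul_mem_cancel_right B.hσ', mul_mem_cancel_left (inv_mem B.hσ')]
    exact B.hσ
  · rw [pos_apply, pow_two, ← cj_cj, f, f]; exact B.hσ'

theorem caseA {q : X} (hq : q < x) (E1 : ∀ u, L (π (cj u (cc (g y) (g x)))) = 1)
    (hm : ∀ w c, S g 2 w c → π (cj (g x)⁻¹ c) = 1)
    (hact : L (π (cc (g x) (g q))) ≠ 1 ∨ L (π (cc (g y) (g q))) ≠ 1) : False := by
  have hn := R.hn
  have se := S.base (g := g) y x B.hxy
  have sa := S.base (g := g) y q (hq.trans B.hxy)
  have sb := S.base (g := g) x q hq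
  have cb := cube (g q) (g x) (g y)
  have h1 := congrArg π cb
  have z1 : π (cj (g q) (cc (g y) (g x))) = 1 :=
    F.triv B.hG.1 (B.hG.mem (cj_mem_H 2 q _ (se.mem_H le_rfl)) (by omega)) (E1 _)
  simp only [map_mul, map_inv, z1, B.IIa R F sb, B.IIc R F sa, B.e_triv R F, inv_one,
    mul_one] at h1
  have h2 : π (cc (g y) (g q)) = π (cc (g x) (g q)) := by
    rw [eq_comm, inv_mul_eq_one] at h1; exact h1
  have ha : L (π (cc (g x) (g q))) ≠ 1 := by
    rcases hact with h | h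
    · exact h
    · rwa [h2] at h
  obtain ⟨l, m, hl, hm0, hco, htl, hcm⟩ := F.h4
  have P1 := periodic (M := C) ⊤ (fun a _ b _ => Commute.all a b) m (fun a _ => hcm a)
    (fun j k => L (π (cj (g x ^ k) (brp (cc (g x) (g q)) (g x) j)))) (fun _ _ => trivial)
    (by
      intro j k
      simp only [brp, cj_br, map_mul, map_inv]
      rw [show g x * g x ^ k = g x ^ (k + 1) by group]) (n - 2)
    (by
      intro k
      obtain ⟨w', -, h⟩ := brp_S sb hq.le (n - 2)
      rw [R.r0 w' (brp (cc (g x) (g q)) (g x) (n - 2))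
        (by rw [show n = 2 + (n - 2) by omega]; simpa using h)]
      simp) (n - 2) 0 (by omega)
  have lin : ∀ j u, L (π (cj u (brp (cc (g y) (g x)) (g x) j))) = 1 := by
    intro j
    induction j with
    | zero => exact E1
    | succ j ih => intro u; simp only [brp, cj_br, map_mul, map_inv, ih]; simp
  have P2 := periodic (M := A) L.ker (fun a ha b hb => F.h1 a b ha hb) l (fun a ha => htl a ha)
    (fun j k => π (cj (g x ^ k * g q) (brp (cc (g y) (g x)) (g x) j))) (fun j k => lin j _)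
    (by
      intro j k
      simp only [brp, cj_br, map_mul, map_inv]
      rw [show g x * (g x ^ k * g q) = g x ^ (k + 1) * g q by group]) (n - 2)
    (by
      intro k
      obtain ⟨w', -, h⟩ := brp_S se le_rfl (n - 2)
      rw [R.r0 w' (brp (cc (g y) (g x)) (g x) (n - 2))
        (by rw [show n = 2 + (n - 2) by omega]; simpa using h)]
      simp) (n - 2) 0 (by omega)
  simp only [brp] at P1 P2
  have hc : IsCoprime ((l ^ (n - 2) : ℕ) : ℤ) ((m ^ (n - 2) : ℕ) : ℤ) :=
    Nat.isCoprime_iff_coprime.2 (Nat.Coprime.pow _ _ hco)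
  obtain ⟨u, v, huv⟩ := hc
  set k : ℤ := -v * ((m ^ (n - 2) : ℕ) : ℤ) with hk
  have a0 : L (pos π (g x ^ k) (cc (g x) (g q))) = L (π (cc (g x) (g q))) := by
    have := P1 0 (-v)
    rw [zero_add] at this
    rw [pos_apply, hk, this]; simp
  have a1 : L (pos π (g x ^ k) (cj (g x) (cc (g x) (g q)))) = 1 := by
    have := P1 1 (-v)
    rw [pos_apply, cj_cj, show g x * g x ^ k = g x ^ (1 + k) by group, hk, this, zpow_one,
      B.IIc R F sb, map_one]
  have hO : Om g L (pos π (g x ^ k)) :=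
    om_of sb (by rw [a0]; exact ha) hq.le (by rw [a0, a1]; exact ha.symm)
  have G1 := claimA R F hO sb (by rw [a0]; exact ha)
  have z2 : π (cj (g q * g x ^ k) (cc (g y) (g x))) = 1 := by
    have := G1.mem (cj_mem_H 2 q _ (se.mem_H le_rfl)) (by omega)
    rw [pos_apply π _ (cj _ _), cj_cj] at this
    exact F.triv G1.1 this (E1 _)
  have z3 : π (cj (g x ^ k * g q) (cc (g y) (g x))) = 1 := by
    rw [cj_swap, map_mul, map_mul, z2]; simp
  have z4 : π (cj (g x ^ (-1 : ℤ) * g q) (cc (g y) (g x))) = 1 := by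
    rw [← P2 (-1) u, show -1 + u * ((l ^ (n - 2) : ℕ) : ℤ) = k by rw [hk]; linarith, z3]
  have z5 : π (cj (g q * (g x)⁻¹) (cc (g y) (g x))) = 1 := by
    rw [zpow_neg_one] at z4
    rw [cj_swap, map_mul, map_mul, z4]; simp
  have h3 := congrArg (fun h => π (cj (g x)⁻¹ h)) cb
  simp only [map_mul, map_inv, cj_cj, z5, hm _ _ se, hm _ _ sa, hm _ _ sb, inv_one, mul_one,
    one_mul, mul_inv_cancel, cj_one] at h3
  rw [eq_comm, inv_mul_eq_one, h2] at h3
  exact B.fin_pos R F sb hq.le (hm _ _ se) (by rw [h3]; exact ha)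
    (by rw [h3]; exact B.hG.mem (sb.mem_H le_rfl) (by omega))

theorem caseB {q b : X} (hq : q < x) (hxb : x < b) (hby : b ≠ y)
    (h1 : L (π (cj (g b) (cc (g x) (g q)))) ≠ 1)
    (h2 : L (π (cj (g b * (g x)⁻¹) (cc (g x) (g q)))) ≠ 1) : False := by
  have hn := R.hn
  have sb := S.base (g := g) x q hq
  have hρ := B.hρ R F
  have fb : π (br (br θ (g x)) (g b)) ∈ Fx a := by
    by_contra hnf
    exact h1 (by rw [B1 R F B.hG hρ hnf sb, map_one])
  have ns : π (cj (g b) (br (br θ (g x)) (g y))) ∉ Fx a := by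
    rcases lt_or_gt_of_ne hby with h | h
    · rw [R.KCD hρ hxb.le h, map_mul, map_mul, map_inv, mul_mem_cancel_right fb,
        mul_mem_cancel_left (inv_mem fb)]
      exact B.hσ
    · rw [R.fixS (B.hs R F) h.le]; exact B.hσ
  have m1 := B.hG.mem (cj_mem_H 2 b _ (sb.mem_H le_rfl)) (by omega)
  have hO : Om g L (pos π (g b)) := by
    by_contra nO
    have e := (not_om nO sb h1).2 y q _ sb
    have z : pos π (g b) (cj (g y) (cc (g x) (g q))) = 1 := by
      refine F.kill B.hG.1 (B.hG.mem (cj_mem_H 3 b _ (cj_mem_H 2 y _ (sb.mem_H le_rfl))) (by omega))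
        (((R.r1 _ _ _ _ _ _ sb hρ (by omega)).map (cj (g y))).map (pos π (g b))) ?_
      rw [cj_eq (g y), pos_apply, map_mul, cj_eq (g b) (br θ (g x)), map_mul, map_mul,
        mul_mem_cancel_left (mul_mem (B.fρ R F) fb)]
      exact ns
    rw [z, map_one] at e
    exact h1 e.symm
  have G1 := good_of R F hO (sb.mem_H le_rfl) (by omega) h1 B.hG.1 m1
  have B' : Bad g L n (pos π (g b)) a θ w x y := by
    refine ⟨G1, B.hθ, B.hw, B.hxy, ns, ?_⟩
    rw [pos_apply, R.fixS (B.hs' R F) hxb.le]; exact B.hσ'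
  have := B'.IIe R F sb hq.le h1 sb
  rw [pos_apply, cj_cj, L_swap] at this
  exact h2 this

end Bad

end Pool.Agent.Lib.MP_841f14_al
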