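import Pool.Agent.Lib.MP_841f14_al.Gauge3

set_option linter.unusedSectionVars false

namespace Pool.Agent.Lib.MP_841f14_al

variable {G : Type*} [Group G] {X : Type*} {A : Type*} [Group A] {C : Type*} [CommGroup C]
variable [LinearOrder X] [Finite X] {g : X → G} {L : A →* C} {n : ℕ}

theorem comm_of_all_Fx (R : Rel g L n) (F : Fro L) {π : commutator G →* A} {a : A} (ha : L a ≠ 1)
    (h : ∀ k ≤ n - 1, ∀ y s, S g k y s → π s ∈ Fx a) (u v : commutator G) :
    Commute (π u) (π v) := by
  have hn := R.hn
  have : ∀ u, π u ∈ Fx a := fun u =>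
    H_le (K := (Fx a).comap π) h (by rw [H_top (by omega) R.gen R.r0]; trivial)
  exact F.h3 ha (this u) (this v)

theorem bad_contra (R : Rel g L n) (F : Fro L) {π : commutator G →* A} {a : A} {θ : commutator G}
    {w x y : X} (B : Bad g L n π a θ w x y) {q b : X} (hqb : q < b) (hq : q < x)
    (E1 : ∀ u z w, w < z → q < w → L (π (cj u (cc (g z) (g w)))) = 1)
    (E2 : ∀ u z, b < z → L (π (cj u (cc (g z) (g q)))) = 1)
    (ha0 : L (π (cc (g b) (g q))) ≠ 1)
    (hm : ∀ w c, S g 2 w c → π (cj (g x)⁻¹ c) = 1) : False := by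
  by_cases hA : L (π (cc (g x) (g q))) ≠ 1 ∨ L (π (cc (g y) (g q))) ≠ 1
  · exact B.caseA R F hq (fun u => E1 u y x B.hxy hq) hm hA
  push Not at hA
  have hbx : b ≠ x := by rintro rfl; exact ha0 hA.1
  have hby : b ≠ y := by rintro rfl; exact ha0 hA.2
  have s0 := S.base (g := g) b q hqb
  have sx := S.base (g := g) x q hq
  have E3 : ∀ u, L (π (cj u (cc (g x) (g b)))) = 1 := by
    intro u
    rcases lt_or_gt_of_ne hbx with h | h
    · exact E1 u x b h hqb
    · rw [cc_symm, map_inv, map_inv, map_inv, E1 u b x h hq, inv_one]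
  have cb := cube (g q) (g b) (g x)
  have h1 := congrArg (fun h => L (π h)) cb
  have e3 := E3 1
  rw [cj_one] at e3
  simp only [map_mul, map_inv, E3, e3, hA.1, B.IIc R F s0, map_one, inv_one, one_mul] at h1
  have h1' : L (π (cj (g b) (cc (g x) (g q)))) ≠ 1 := by
    intro h; rw [h, one_mul] at h1; exact ha0 h1.symm
  have h2 := congrArg (fun h => L (π (cj (g x)⁻¹ h))) cb
  simp only [map_mul, map_inv, cj_cj, E3, hm _ _ sx, hm _ _ s0, inv_one, one_mul,
    mul_one, mul_inv_cancel, cj_one] at h2
  have h2' : L (π (cj (g b * (g x)⁻¹) (cc (g x) (g q)))) ≠ 1 := by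
    intro h; rw [h, mul_one, eq_comm, inv_eq_one] at h2; exact ha0 h2
  have hxb : x < b := by
    rcases lt_or_gt_of_ne hbx with h | h
    · exact absurd (E2 _ x h) h1'
    · exact h
  exact B.caseB R F hq hxb hby h1' h2'

theorem main_contra (R : Rel g L n) (F : Fro L) {π : commutator G →* A} {q b : X} (hqb : q < b)
    (E1 : ∀ u z w, w < z → q < w → L (π (cj u (cc (g z) (g w)))) = 1)
    (E2 : ∀ u z, b < z → L (π (cj u (cc (g z) (g q)))) = 1)
    (ha0 : L (π (cc (g b) (g q))) ≠ 1) (hO : Om g L π) (u v : commutator G) :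
    Commute (π u) (π v) := by
  have hn := R.hn
  have s0 := S.base (g := g) b q hqb
  have hG := claimA R F hO s0 ha0
  set a := π (cc (g b) (g q)) with had
  refine comm_of_all_Fx R F ha0 ?_ u v
  have main : ∀ y s, S g (n - 1) y s → π s ∈ Fx a := by
    intro y
    induction y using WellFoundedLT.induction with
    | _ y ih =>
    intro s hs
    obtain ⟨x, ρ, hρ, hxy, rfl⟩ := hs.inv_succ (by omega)
    obtain ⟨w, θ, hθ, hw, rfl⟩ := hρ.inv_succ (by omega)
    rw [show n - 1 - 1 - 1 = n - 3 by omega] at hθ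
    rcases eq_or_lt_of_le hxy with rfl | hxy
    · exact caseYY R F hG s0 ha0 hθ hw
    by_contra hσ
    have hmin : ∀ b, x ≤ b → b < y → π (br (br θ (g x)) (g b)) ∈ Fx a := fun b h1 h2 =>
      ih b h2 _ (hρ.step' h1 (by omega))
    have B : Bad g L n π a θ w x y := ⟨hG, hθ, hw, hxy, hσ, hmin x le_rfl hxy⟩
    have hq := B.IIg R F hmin hqb ha0
    by_cases hm : ∀ w c, S g 2 w c → π (cj (g x)⁻¹ c) = 1
    · exact bad_contra R F B hqb hq E1 E2 ha0 hm
    · push Not at hm
      obtain ⟨w', c, hc, hγ⟩ := hm
      obtain ⟨G2, a2⟩ := column R F hG s0 hq.le ha0 (by rw [B.IIc R F s0, map_one])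
        (fun w c hc => B.IIe R F s0 hq.le ha0 hc) hc hγ
      refine bad_contra R F (B.shift2 R F G2) hqb hq ?_ ?_ a2 ?_
      · intro u z w h1 h2; rw [pos_apply, cj_cj]; exact E1 _ z w h1 h2
      · intro u z h1; rw [pos_apply, cj_cj]; exact E2 _ z h1
      · intro w c hc
        rw [pos_apply, cj_cj, show (g x)⁻¹ * g x ^ 2 = g x by group]
        exact B.IIc R F hc
  intro k hk y s hs
  rcases lt_or_eq_of_le hk with h | rfl
  · exact hG.mem (hs.mem_H le_rfl) (by omega)
  · exact main y s hs

/-- the common kernel of all positions -/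
def NK (π : commutator G →* A) : Subgroup G :=
  (⨅ a : G, (pos π a).ker).map (commutator G).subtype

instance (π : commutator G →* A) : (NK π).Normal := by
  constructor
  rintro _ ⟨h, hh, rfl⟩ a
  refine ⟨cj a⁻¹ h, ?_, by simp⟩
  simp only [Subgroup.coe_iInf, Set.mem_iInter, SetLike.mem_coe, MonoidHom.mem_ker, pos_apply] at hh ⊢
  intro b; rw [cj_cj]; exact hh _

theorem NK_iff (π : commutator G →* A) (h : commutator G) :
    QuotientGroup.mk' (NK π) h = 1 ↔ ∀ a, π (cj a h) = 1 := by
  rw [QuotientGroup.mk'_apply, QuotientGroup.eq_one_iff]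
  constructor
  · rintro ⟨k, hk, e⟩
    obtain rfl : k = h := Subtype.ext e
    simpa [Subgroup.mem_iInf] using hk
  · intro hh
    exact ⟨h, by simpa [Subgroup.mem_iInf] using hh, rfl⟩

theorem NK_comm (π : commutator G →* A) (h k : commutator G) :
    Commute (QuotientGroup.mk' (NK π) h) (QuotientGroup.mk' (NK π) k) ↔
      ∀ a, Commute (π (cj a h)) (π (cj a k)) := by
  have := NK_iff π (h⁻¹ * k⁻¹ * h * k)
  simp only [Subgroup.coe_mul, Subgroup.coe_inv, map_mul, map_inv] at this
  constructor
  · intro H a; exact commute_of_cm (this.1 (cm_of_commute H) a)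
  · intro H; exact commute_of_cm (this.2 fun a => cm_of_commute (H a))

theorem const_case (R : Rel g L n) (F : Fro L) {π : commutator G →* A}
    (hc : ∀ a h, L (π (cj a h)) = L (π h)) (h0 : ∃ h, L (π h) ≠ 1) (u v : commutator G) :
    Commute (π u) (π v) := by
  have hn := R.hn
  have inact : ∀ k y s, S g k y s → 3 ≤ k → ∀ a, L (π (cj a s)) = 1 := by
    intro k y s hs hk a
    obtain ⟨w, t, -, -, rfl⟩ := hs.inv_succ hk
    rw [hc, br, map_mul, map_mul, hc]; simp
  obtain ⟨w0, c0, hc0, ha0⟩ : ∃ w0 c0, S g 2 w0 c0 ∧ L (π c0) ≠ 1 := by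
    by_contra hne
    push Not at hne
    obtain ⟨h, hh⟩ := h0
    refine hh (H_le (K := (L.comp π).ker) ?_
      (show h ∈ H g (n - 1) by rw [H_top (by omega) R.gen R.r0]; trivial))
    intro k _ y s hs
    rcases lt_or_eq_of_le hs.two_le with h2 | rfl
    · simpa using inact k y s hs h2 1
    · exact hne y s hs
  have act : ∀ a, L (pos π a c0) ≠ 1 := fun a => by rw [pos_apply, hc]; exact ha0
  set q := QuotientGroup.mk' (NK π) with hqd
  have qbr : ∀ (s : commutator G) a, q (br s a) = 1 ↔ Commute (q s) (q a) := by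
    intro s a
    rw [br_coe, ← mul_assoc, ← mul_assoc]
    simp only [map_mul, map_inv]
    exact ⟨commute_of_cm, cm_of_commute⟩
  have up : (∀ y s, S g 3 y s → q s = 1) → ∀ k y s, S g k y s → 3 ≤ k → π s ∈ Fx (π c0) := by
    intro h3 k y s hs hk
    have : q s = 1 := by
      induction hs with
      | base => omega
      | step m y s x hs hl ih =>
        rcases lt_or_eq_of_le hk with h1 | h1
        · rw [qbr, ih (by omega)]; exact Commute.one_left _
        · exact h3 x _ (hs.step' hl h1)
    have := (NK_iff π s).1 this 1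
    rw [cj_one] at this
    rw [this]; exact one_mem _
  rcases Nat.even_or_odd' n with ⟨k, hk | hk⟩
  · have two : ∀ a w c, S g 2 w c → π (cj a c) ∈ Fx (π (cj a c0)) := fun a w c hc' =>
      R.P0 (pos π a) hc' hc0 (act a) (k - 2) (by omega)
    have four : ∀ y s, S g 4 y s → q s = 1 := fun y s hs => (NK_iff π s).2 fun a =>
      R.T0 F (pos π a) hs hc0 (act a) (inact 4 y s hs (by omega) a) (k - 2) (by omega)
    have three : ∀ y s, S g 3 y s → q s = 1 := by
      intro w s hs
      obtain ⟨y, c, hc', hyw, rfl⟩ := hs.inv_succ le_rfl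
      by_cases hca : L (π c) = 1
      · have : q c = 1 := (NK_iff π c).2 fun a =>
          F.triv (act a) (two a y c hc') (by rw [hc]; exact hca)
        rw [qbr, this]; exact Commute.one_left _
      have cm : ∀ x, y ≤ x → Commute (q (br c (g w))) (q (g x)) := by
        intro x hx
        rcases le_or_gt w x with h | h
        · exact (qbr _ _).1 (four x _ (S.step 3 w _ x hs h))
        · have s' : S g 3 x (br c (g x)) := S.step 2 y c x hc' hx
          have se := S.base (g := g) w x h
          have c1 : Commute (q c) (q (cc (g w) (g x))) := (NK_comm π _ _).2 fun a =>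
            F.h3 (act a) (two a _ _ hc') (two a _ _ se)
          have c2 : Commute (q (br c (g w))) (q (br c (g x))) := (NK_comm π _ _).2 fun a =>
            F.h1 _ _ (inact 3 _ _ hs le_rfl a) (inact 3 _ _ s' le_rfl a)
          have := KC (q c) (q (g x)) (q (g w)) (q (br c (g w))) (q (br c (g x)))
            (by simp) (by simp) ((qbr _ _).1 (four x _ (S.step 3 x _ x s' le_rfl)))
            ((qbr _ _).1 (four w _ (S.step 3 x _ w s' h.le)))
            ((qbr _ _).1 (four w _ (S.step 3 w _ w hs le_rfl))) (by simpa using c1)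
          rw [mul_assoc (q (br c (g x)))⁻¹, c2.eq, inv_mul_cancel_left] at this
          show q (br c (g w)) * q (g x) = q (g x) * q (br c (g w))
          conv_rhs => rw [← this]
          group
      obtain ⟨z, hz, rfl⟩ := hc'.inv_two
      have c1 := cm y le_rfl
      have c2 := cm z hz.le
      have c3 : Commute (q (cc (g z) (g y))) (q (br (cc (g z) (g y)) (g w))) := by
        have := ((c2.inv_right.mul_right c1.inv_right).mul_right c2).mul_right c1
        rw [cc_coe]
        simp only [map_mul, map_inv]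
        exact this.symm
      exact (NK_iff π _).2 fun a => F.h2 _ _ (by rw [hc]; exact hca) (inact 3 _ _ hs le_rfl a)
        ((NK_comm π _ _).1 c3 a)
    refine comm_of_all_Fx R F ha0 ?_ u v
    intro k _ y s hs
    rcases lt_or_eq_of_le hs.two_le with h2 | rfl
    · exact up three k y s hs h2
    · simpa using two 1 y s hs
  · have three : ∀ y s, S g 3 y s → q s = 1 := fun y s hs => (NK_iff π s).2 fun a =>
      R.T0 F (pos π a) hs hc0 (act a) (inact 3 y s hs le_rfl a) (k - 1) (by omega)
    have cen : ∀ y z, y < z → ∀ a : G, Commute (q (cc (g z) (g y))) (q a) := by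
      intro y
      induction y using WellFoundedLT.induction with
      | _ y ih =>
      intro z hz a
      have ha : a ∈ Subgroup.closure (Set.range g) := R.gen ▸ Subgroup.mem_top a
      induction ha using Subgroup.closure_induction with
      | mem x hx =>
        obtain ⟨x, rfl⟩ := hx
        rcases le_or_gt y x with h | h
        · exact (qbr _ _).1 (three x _ (S.step 2 y _ x (S.base z y hz) h))
        · have c1 := ih x h z (h.trans hz)
          have c2 := ih x h y h
          have cb := congrArg (fun h : commutator G => q h) (cube (g x) (g y) (g z))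
          simp only [Subgroup.coe_mul, Subgroup.coe_inv, map_mul, map_inv, cj_coe] at cb
          have c3 := c1 (cc (g y) (g x))
          have c4 := c1 (cc (g z) (g y))
          generalize q (cc (g z) (g x)) = α at *
          generalize q (cc (g y) (g x)) = β at *
          rw [mul_assoc (q (g z))⁻¹, (c2 (g z)).eq, inv_mul_cancel_left,
            mul_assoc (q (g y))⁻¹, (c1 (g y)).eq, inv_mul_cancel_left, mul_assoc α⁻¹,
            (c2 _).inv_left.eq, mul_assoc α⁻¹, mul_assoc α⁻¹, mul_assoc _ α, c3.eq, mul_assoc,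
            mul_assoc, inv_mul_cancel_left, ← c4.eq, inv_mul_cancel_left] at cb
          exact inv_mul_eq_iff_eq_mul.1 cb
      | one => simp
      | mul a b _ _ ha hb => rw [map_mul]; exact ha.mul_right hb
      | inv a _ ha => rw [map_inv]; exact ha.inv_right
    refine comm_of_all_Fx R F ha0 ?_ u v
    intro k _ y s hs
    rcases lt_or_eq_of_le hs.two_le with h2 | rfl
    · exact up three k y s hs h2
    · obtain ⟨z, hz, rfl⟩ := hs.inv_two
      simpa [mem_Fx] using ((NK_comm π _ _).1 (cen y z hz c0) 1).symm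

theorem gauge (R : Rel g L n) (F : Fro L) (π : commutator G →* A) (h0 : ∃ h, L (π h) ≠ 1)
    (u v : commutator G) : Commute (π u) (π v) := by
  have hn := R.hn
  by_cases hc : ∀ a h, L (π (cj a h)) = L (π h)
  · exact const_case R F hc h0 u v
  have hne : {w | ∃ z a, w < z ∧ L (π (cj a (cc (g z) (g w)))) ≠ 1}.Nonempty := by
    by_contra hemp
    rw [Set.not_nonempty_iff_eq_empty, Set.eq_empty_iff_forall_notMem] at hemp
    simp only [Set.mem_ofPred_eq, not_exists, not_and, not_not] at hemp
    refine hc (lin_const (by omega) R.gen R.r0 (L.comp π) ?_)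
    intro w _ y s hs
    obtain ⟨y', c, hc', -, rfl⟩ := hs.inv_succ le_rfl
    obtain ⟨z, hz, rfl⟩ := hc'.inv_two
    simp [cj_br, hemp y' z _ hz]
  obtain ⟨q, ⟨z0, a0, hz0, h0'⟩, hqm⟩ := wellFounded_gt.has_min _ hne
  obtain ⟨b, ⟨a1, hqb, h1⟩, hbm⟩ := wellFounded_gt.has_min
    {z | ∃ a, q < z ∧ L (π (cj a (cc (g z) (g q)))) ≠ 1} ⟨z0, a0, hz0, h0'⟩
  have s0 := S.base (g := g) b q hqb
  obtain ⟨w, hO, hw⟩ : ∃ w, Om g L (pos π (w * a1)) ∧
      L (pos π (w * a1) (cc (g b) (g q))) ≠ 1 := by
    by_contra hcon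
    push Not at hcon
    have key : ∀ w ∈ Submonoid.closure (Set.range g),
        L (pos π (w * a1) (cc (g b) (g q))) ≠ 1 := by
      intro w hw
      induction hw using Submonoid.closure_induction_left with
      | one => simpa using h1
      | mul_left x hx w _ ih =>
        obtain ⟨x, rfl⟩ := hx
        have := (not_om (fun hO => ih (hcon w hO)) s0 ih).2 x q _ s0
        rw [pos_apply, cj_cj, ← mul_assoc] at this
        rw [pos_apply, this]; exact ih
    have := lin_const (by omega) R.gen R.r0 (L.comp (pos π a1)) (by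
      intro w hw y s hs
      have := (not_om (fun hO => key w hw (hcon w hO)) s0 (key w hw)).1 y s hs
      simpa [cj_cj] using this)
    apply hc
    intro a h
    have e1 := this (a * a1⁻¹) h
    have e2 := this a1⁻¹ h
    simp only [MonoidHom.comp_apply, pos_apply, cj_cj, inv_mul_cancel_right, inv_mul_cancel,
      cj_one] at e1 e2
    rw [e1, e2]
  have := main_contra R F (π := pos π (w * a1)) hqb
    (by
      intro u z w' h1 h2
      by_contra hne
      rw [pos_apply, cj_cj] at hne
      exact hqm w' ⟨z, _, h1, hne⟩ h2)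
    (by
      intro u z h1
      by_contra hne
      rw [pos_apply, cj_cj] at hne
      exact hbm z ⟨_, hqb.trans h1, hne⟩ h1) hw hO (cj (w * a1)⁻¹ u) (cj (w * a1)⁻¹ v)
  simpa [cj_cj] using this

end Pool.Agent.Lib.MP_841f14_al
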