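import Pool.Agent.Lib.MP_841f14_al.Span

namespace Pool.Agent.Lib.MP_841f14_al

open scoped commutatorElement

variable {G : Type*} [Group G] {X : Type*}

/-- conjugation of the commutator subgroup -/
def cj (a : G) : commutator G →* commutator G where
  toFun h := ⟨a⁻¹ * h * a, by
    have := (inferInstance : (commutator G).Normal).conj_mem _ h.2 a⁻¹
    simpa using this⟩
  map_one' := by ext; simp
  map_mul' h k := by ext; simp [mul_assoc]

@[simp] theorem cj_coe (a : G) (h : commutator G) : (cj a h : G) = a⁻¹ * h * a := rfl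

def br (h : commutator G) (a : G) : commutator G := h⁻¹ * cj a h

@[simp] theorem br_coe (a : G) (h : commutator G) : (br h a : G) = (h : G)⁻¹ * (a⁻¹ * h * a) := rfl

def cc (a b : G) : commutator G := ⟨a⁻¹ * b⁻¹ * a * b, by
  have : ⁅a⁻¹, b⁻¹⁆ ∈ commutator G :=
    Subgroup.commutator_mem_commutator (Subgroup.mem_top _) (Subgroup.mem_top _)
  simpa [commutatorElement_def] using this⟩

@[simp] theorem cc_coe (a b : G) : (cc a b : G) = a⁻¹ * b⁻¹ * a * b := rfl

theorem cj_cj (a b : G) (h : commutator G) : cj b (cj a h) = cj (a * b) h := by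
  ext; simp [mul_assoc]

@[simp] theorem cj_one (h : commutator G) : cj 1 h = h := by ext; simp

theorem cj_inner (k h : commutator G) : cj (k : G) h = k⁻¹ * h * k := by ext; simp

theorem cj_swap (a b : G) (h : commutator G) :
    cj (b * a) h = (cc b a)⁻¹ * cj (a * b) h * cc b a := by
  ext; simp; group

theorem cj_eq (a : G) (h : commutator G) : cj a h = h * br h a := by simp [br]

theorem cube (x y z : G) : cj x (cc z y) =
    (cc z x)⁻¹ * (cj z (cc y x))⁻¹ * cc z y * cj y (cc z x) * cc y x := by
  ext; simp; group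

theorem cc_inv (a b : G) : cc a b⁻¹ = (cj b⁻¹ (cc a b))⁻¹ := by
  ext; simp; group

theorem cc_symm (a b : G) : cc a b = (cc b a)⁻¹ := by
  ext; simp; group

theorem cj_inv_eq (a : G) (h : commutator G) : cj a⁻¹ h = h * (cj a⁻¹ (br h a))⁻¹ := by
  ext; simp; group

section
variable [LinearOrder X] (g : X → G)

/-- simple basic commutators, with weight and last letter -/
inductive S : ℕ → X → commutator G → Prop
  | base (z w : X) : w < z → S 2 w (cc (g z) (g w))
  | step (m : ℕ) (y : X) (s : commutator G) (x : X) : S m y s → y ≤ x → S (m + 1) x (br s (g x))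

variable {g}

theorem S.two_le {m : ℕ} {y : X} {s : commutator G} (h : S g m y s) : 2 ≤ m := by
  induction h with
  | base => exact le_rfl
  | step m y s x _ _ ih => omega

theorem S.inv_two {y : X} {s : commutator G} (h : S g 2 y s) :
    ∃ z, y < z ∧ s = cc (g z) (g y) := by
  generalize hm : 2 = m at h
  cases h with
  | base z w h => exact ⟨z, h, rfl⟩
  | step m y s x h _ => have := h.two_le; omega

theorem S.inv_succ {m : ℕ} (hm : 3 ≤ m) {x : X} {s : commutator G} (h : S g m x s) :
    ∃ y t, S g (m - 1) y t ∧ y ≤ x ∧ s = br t (g x) := by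
  cases h with
  | base z w h => omega
  | step m y s x h hl => exact ⟨y, s, h, hl, rfl⟩

theorem S.step' {m k : ℕ} {y x : X} {s : commutator G} (h : S g m y s) (hl : y ≤ x)
    (hk : k = m + 1) : S g k x (br s (g x)) := hk ▸ S.step m y s x h hl

variable (g) in
def H (m : ℕ) : Subgroup (commutator G) := Subgroup.closure {s | ∃ k ≤ m, ∃ y, S g k y s}

theorem S.mem_H {k m : ℕ} {y : X} {s : commutator G} (h : S g k y s) (hk : k ≤ m) : s ∈ H g m :=
  Subgroup.subset_closure ⟨k, hk, y, h⟩

theorem H_mono {k m : ℕ} (h : k ≤ m) : H g k ≤ H g m := by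
  apply Subgroup.closure_mono
  rintro s ⟨j, hj, y, hs⟩
  exact ⟨j, hj.trans h, y, hs⟩

theorem H_le {m : ℕ} {K : Subgroup (commutator G)} (h : ∀ k ≤ m, ∀ y s, S g k y s → s ∈ K) :
    H g m ≤ K := by
  rw [H, Subgroup.closure_le]
  rintro s ⟨k, hk, y, hs⟩
  exact h k hk y s hs

theorem cj_basic_mem {k m : ℕ} {y x : X} {s : commutator G} (h : S g k y s) (hl : y ≤ x)
    (hk : k + 1 ≤ m) : cj (g x) s ∈ H g m := by
  rw [cj_eq]
  exact mul_mem (h.mem_H (by omega)) ((S.step k y s x h hl).mem_H hk)

theorem cj_mem_H [Finite X] (m : ℕ) : ∀ (x : X) (h : commutator G), h ∈ H g m →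
    cj (g x) h ∈ H g (m + 1) := by
  induction m using Nat.strong_induction_on with
  | _ m ihm =>
  intro x
  induction x using WellFoundedGT.induction with
  | _ x ihx =>
  intro h hh
  refine H_le (K := (H g (m + 1)).comap (cj (g x))) ?_ hh
  intro k hk y s hs
  rw [Subgroup.mem_comap]
  rcases lt_or_eq_of_le hk with hk' | rfl
  · exact H_mono (by omega) (ihm k hk' x s (hs.mem_H le_rfl))
  rcases le_or_gt y x with hyx | hxy
  · exact cj_basic_mem hs hyx le_rfl
  cases hs with
  | base z w hw =>
    rw [cube]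
    have h1 := S.base (g := g) z x (hxy.trans hw)
    have h2 := S.base (g := g) y x hxy
    refine mul_mem (mul_mem (mul_mem (mul_mem (inv_mem (h1.mem_H (by omega))) (inv_mem ?_))
      ((S.base z y hw).mem_H (by omega))) ?_) (h2.mem_H (by omega))
    · exact cj_basic_mem h2 (hxy.trans hw).le le_rfl
    · exact cj_basic_mem h1 hxy.le le_rfl
  | step m w t _ ht hw =>
    have h1 := ihm m (by omega) x t (ht.mem_H le_rfl)
    have h2 := (S.base (g := g) y x hxy).mem_H (m := m + 1 + 1) (by have := ht.two_le; omega)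
    rw [br, map_mul, map_inv, cj_cj, cj_swap, ← cj_cj]
    exact mul_mem (inv_mem (H_mono (by omega) h1))
      (mul_mem (mul_mem (inv_mem h2) (ihx y hxy _ h1)) h2)

theorem cj_mem_H' [Finite X] {m k : ℕ} (x : X) {h : commutator G} (hh : h ∈ H g m)
    (hk : m + 1 ≤ k) : cj (g x) h ∈ H g k := H_mono hk (cj_mem_H m x h hh)

theorem cj_pow_mem_H [Finite X] {m : ℕ} (x : X) {h : commutator G} (hh : h ∈ H g m) (j : ℕ) :
    cj (g x ^ j) h ∈ H g (m + j) := by
  induction j with
  | zero => simpa using hh
  | succ j ih => rw [pow_succ, ← cj_cj]; exact cj_mem_H _ x _ ih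

theorem S_triv_of_ge {n : ℕ} (r0 : ∀ y s, S g n y s → s = 1) (hn : 2 ≤ n) {k : ℕ} {y : X}
    {s : commutator G} (h : S g k y s) (hk : n ≤ k) : s = 1 := by
  induction h with
  | base z w hw => exact r0 w _ (by rw [show n = 2 by omega]; exact S.base z w hw)
  | step m y s x hs hl ih =>
    rcases lt_or_eq_of_le hk with h1 | h1
    · rw [ih (by omega)]; simp [br]
    · exact r0 x _ (hs.step' hl h1)

theorem H_top [Finite X] {n : ℕ} (hn : 2 ≤ n) (hg : Subgroup.closure (Set.range g) = ⊤)
    (r0 : ∀ y s, S g n y s → s = 1) : H g (n - 1) = ⊤ := by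
  have hall : ∀ k y s, S g k y s → s ∈ H g (n - 1) := by
    intro k y s hs
    rcases le_or_gt n k with h | h
    · rw [S_triv_of_ge r0 hn hs h]; exact one_mem _
    · exact hs.mem_H (by omega)
  have hpos : ∀ x h, h ∈ H g (n - 1) → cj (g x) h ∈ H g (n - 1) := fun x h hh =>
    H_le (fun k _ y s hs => hall k y s hs) (cj_mem_H _ x h hh)
  have hA : ∀ x j k y s, S g k y s → y ≤ x → n ≤ k + j → cj (g x)⁻¹ s ∈ H g (n - 1) := by
    intro x j
    induction j with
    | zero =>
      intro k y s hs _ hk
      rw [S_triv_of_ge r0 hn hs hk, map_one]; exact one_mem _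
    | succ j ih =>
      intro k y s hs hl hk
      rw [cj_inv_eq]
      exact mul_mem (hall _ _ _ hs) (inv_mem (ih (k + 1) x _ (S.step k y s x hs hl) le_rfl
        (by omega)))
  have hcc : ∀ x y, x < y → cc (g y) (g x)⁻¹ ∈ H g (n - 1) := by
    intro x y h
    rw [cc_inv]
    exact inv_mem (hA x n 2 x _ (S.base y x h) le_rfl (by omega))
  have hB : ∀ x k y s, S g k y s → cj (g x)⁻¹ s ∈ H g (n - 1) := by
    intro x k y s hs
    induction hs with
    | base z w hw =>
      rcases le_or_gt w x with h | h
      · exact hA x n 2 w _ (S.base z w hw) h (by omega)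
      · rw [cube]
        exact mul_mem (mul_mem (mul_mem (mul_mem (inv_mem (hcc x z (h.trans hw)))
          (inv_mem (hpos _ _ (hcc x w h)))) (hall _ _ _ (S.base z w hw)))
          (hpos _ _ (hcc x z (h.trans hw)))) (hcc x w h)
    | step m w t y ht hw ih =>
      rcases le_or_gt y x with h | h
      · exact hA x n _ y _ (S.step m w t y ht hw) h (by omega)
      · rw [br, map_mul, map_inv, cj_cj, cj_swap, ← cj_cj]
        exact mul_mem (inv_mem ih) (mul_mem (mul_mem (inv_mem (hcc x y h)) (hpos _ _ ih))
          (hcc x y h))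
  have hneg : ∀ x h, h ∈ H g (n - 1) → cj (g x)⁻¹ h ∈ H g (n - 1) := fun x h hh =>
    H_le (K := (H g (n - 1)).comap (cj (g x)⁻¹)) (fun k _ y s hs => hB x k y s hs) hh
  have hall' : ∀ a : G, ∀ h, h ∈ H g (n - 1) → cj a h ∈ H g (n - 1) := by
    intro a
    have ha : a ∈ Subgroup.closure (Set.range g) := hg ▸ Subgroup.mem_top a
    induction ha using Subgroup.closure_induction'' with
    | mem x hx => obtain ⟨x, rfl⟩ := hx; exact hpos x
    | inv_mem x hx => obtain ⟨x, rfl⟩ := hx; exact hneg x
    | one => intro h hh; simpa using hh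
    | mul a b _ _ ha hb => intro h hh; rw [← cj_cj]; exact hb _ (ha _ hh)
  have : ((H g (n - 1)).map (commutator G).subtype).Normal := by
    constructor
    rintro _ ⟨h, hh, rfl⟩ a
    exact ⟨cj a⁻¹ h, hall' _ _ hh, by simp⟩
  have hle : commutator G ≤ (H g (n - 1)).map (commutator G).subtype := by
    refine le_trans (le_of_eq (show commutator G = ⁅Subgroup.closure (Set.range g),
      Subgroup.closure (Set.range g)⁆ by rw [hg]; rfl)) ?_
    apply commutator_closure_le
    rintro _ ⟨x, rfl⟩ _ ⟨y, rfl⟩
    rw [comm_mem_iff, ← cm_mem_iff]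
    rcases lt_trichotomy x y with h | h | h
    · exact ⟨_, inv_mem (hall _ _ _ (S.base y x h)), by simp; group⟩
    · subst h; simp
    · exact ⟨_, hall _ _ _ (S.base x y h), rfl⟩
  rw [eq_top_iff]
  rintro ⟨a, ha⟩ -
  obtain ⟨h, hh, rfl⟩ := hle ha
  exact hh

theorem lin_inv [Finite X] {C : Type*} [CommGroup C] (m : ℕ) : ∀ l : commutator G →* C,
    (∀ y s, S g (m + 1) y s → l s = 1) → ∀ x y s, S g m y s → l (cj (g x) s) = l s := by
  induction m with
  | zero => intro l _ x y s hs; have := hs.two_le; omega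
  | succ m ihm =>
    intro l hl x
    induction x using WellFoundedGT.induction with
    | _ x ihx =>
    intro y s hs
    have bas : ∀ x y s, S g (m + 1) y s → y ≤ x → l (cj (g x) s) = l s := by
      intro x y s hs h
      rw [cj_eq, map_mul, hl x _ (S.step _ y s x hs h), mul_one]
    rcases le_or_gt y x with hyx | hxy
    · exact bas x y s hs hyx
    rcases lt_or_eq_of_le hs.two_le with h2 | h2
    · obtain ⟨w, t, ht, hw, rfl⟩ := hs.inv_succ (by omega)
      let l' : commutator G →* C := l⁻¹ * l.comp (cj (g y))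
      have hl' : ∀ h, l' h = l (br h (g y)) := by intro h; simp [l', br]
      have h1 := ihm l' (fun w s hs => by
        rw [hl', br, map_mul, ihx y hxy w s hs]; simp) x w t ht
      rw [← hl', ← h1, hl', br, br, map_mul (cj _), map_inv, cj_cj, cj_swap, ← cj_cj]
      simp [mul_comm]
    · have hm : m = 1 := by omega
      subst hm
      obtain ⟨z, hz, rfl⟩ := hs.inv_two
      rw [cube]
      simp only [map_mul, map_inv]
      rw [bas z x _ (S.base y x hxy) (hxy.trans hz).le, bas y x _ (S.base z x (hxy.trans hz)) hxy.le]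
      apply Additive.ofMul.injective
      simp only [ofMul_mul, ofMul_inv]
      abel

theorem lin_const [Finite X] {C : Type*} [CommGroup C] {n : ℕ} (hn : 2 ≤ n)
    (hg : Subgroup.closure (Set.range g) = ⊤) (r0 : ∀ y s, S g n y s → s = 1)
    (l : commutator G →* C)
    (h3 : ∀ w ∈ Submonoid.closure (Set.range g), ∀ y s, S g 3 y s → l (cj w s) = 1) (a : G)
    (h : commutator G) : l (cj a h) = l h := by
  have h4 : ∀ k y s, S g k y s → 3 ≤ k → ∀ w ∈ Submonoid.closure (Set.range g),
      l (cj w s) = 1 := by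
    intro k y s hs
    induction hs with
    | base => omega
    | step m y s x hs hl ih =>
      intro hk w hw
      rcases lt_or_eq_of_le hk with h1 | h1
      · rw [br, map_mul, map_inv, cj_cj, map_mul, map_inv, ih (by omega) w hw,
          ih (by omega) _ (mul_mem (Submonoid.subset_closure ⟨x, rfl⟩) hw)]
        simp
      · exact h3 w hw x _ (hs.step' hl h1)
  have h5 : ∀ x h, l (cj (g x) h) = l h := by
    intro x h
    have hh : h ∈ H g (n - 1) := by rw [H_top hn hg r0]; trivial
    refine H_le (K := (l.comp (cj (g x))).eqLocus l) ?_ hh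
    intro k _ y s hs
    refine lin_inv k l (fun y s hs' => ?_) x y s hs
    simpa using h4 _ y s hs' (by have := hs.two_le; omega) 1 (one_mem _)
  have ha : a ∈ Subgroup.closure (Set.range g) := hg ▸ Subgroup.mem_top a
  induction ha using Subgroup.closure_induction generalizing h with
  | mem x hx => obtain ⟨x, rfl⟩ := hx; exact h5 x h
  | one => simp
  | mul a b _ _ ha hb => rw [← cj_cj, hb, ha]
  | inv a _ ha => rw [← ha (cj a⁻¹ h), cj_cj]; simp

theorem cj_mem_commutator (a : G) {h : commutator G} (hh : h ∈ commutator (commutator G)) :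
    cj a h ∈ commutator (commutator G) := by
  have : (commutator (commutator G)).map (cj a) ≤ commutator (commutator G) := by
    rw [commutator_def (commutator G), Subgroup.map_commutator]
    exact Subgroup.commutator_mono le_top le_top
  exact this ⟨h, hh, rfl⟩

variable (g) in
def KK (m : ℕ) : Subgroup (commutator G) :=
  Subgroup.closure {s | ∃ k, m ≤ k ∧ ∃ y, S g k y s} ⊔ commutator (commutator G)

instance (m : ℕ) : (KK g m).Normal := Subgroup.Normal.of_commutator_le _ le_sup_right

theorem KK_br [Finite X] (m : ℕ) (x : X) (h : commutator G) (hh : h ∈ KK g m) :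
    br h (g x) ∈ KK g (m + 1) := by
  let _ : CommGroup (commutator G ⧸ KK g (m + 1)) :=
    { (inferInstance : Group (commutator G ⧸ KK g (m + 1))) with
      mul_comm := ((Subgroup.Normal.quotient_commutative_iff_commutator_le
        (N := KK g (m + 1))).2 le_sup_right).1.1 }
  let l := QuotientGroup.mk' (KK g (m + 1))
  have hk : ∀ h, l h = 1 ↔ h ∈ KK g (m + 1) := fun h => QuotientGroup.eq_one_iff h
  have : KK g m ≤ (l.comp (cj (g x))).eqLocus l := by
    refine sup_le ?_ ?_
    · rw [Subgroup.closure_le]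
      rintro s ⟨k, hk1, y, hs⟩
      refine lin_inv k l (fun y s hs' => (hk _).2 ?_) x y s hs
      exact (le_sup_left : _ ≤ KK g (m + 1)) (Subgroup.subset_closure ⟨k + 1, by omega, y, hs'⟩)
    · intro h hh
      change l (cj (g x) h) = l h
      rw [(hk _).2 ((le_sup_right : _ ≤ KK g (m + 1)) hh),
        (hk _).2 ((le_sup_right : _ ≤ KK g (m + 1)) (cj_mem_commutator _ hh))]
  have h1 : l (cj (g x) h) = l h := this hh
  rw [← hk, br, map_mul, h1]; simp

theorem KK_anti {k m : ℕ} (h : k ≤ m) : KK g m ≤ KK g k := by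
  refine sup_le_sup_right (Subgroup.closure_mono ?_) _
  rintro s ⟨j, hj, y, hs⟩
  exact ⟨j, h.trans hj, y, hs⟩

theorem gam_le_derived [Finite X] {n : ℕ} (hn : 2 ≤ n) (hg : Subgroup.closure (Set.range g) = ⊤)
    (r0 : ∀ y s, S g n y s → s = 1) : gam G n ≤ ⁅commutator G, commutator G⁆ := by
  have hKn : ∀ m, n ≤ m → KK g m = commutator (commutator G) := by
    intro m hm
    refine le_antisymm (sup_le ?_ le_rfl) le_sup_right
    rw [Subgroup.closure_le]
    rintro s ⟨k, hk, y, hs⟩
    rw [S_triv_of_ge r0 hn hs (by omega)]; exact one_mem _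
  have hQ : ∀ j m, n ≤ m + j → ∀ a : G, ∀ h ∈ KK g m, cj a h ∈ KK g m := by
    intro j
    induction j with
    | zero =>
      intro m hm a h hh
      rw [hKn m hm] at hh ⊢
      exact cj_mem_commutator a hh
    | succ j ih =>
      intro m hm a
      have ha : a ∈ Subgroup.closure (Set.range g) := hg ▸ Subgroup.mem_top a
      induction ha using Subgroup.closure_induction'' with
      | mem x hx =>
        obtain ⟨x, rfl⟩ := hx
        intro h hh
        rw [cj_eq]; exact mul_mem hh (KK_anti (by omega) (KK_br m x h hh))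
      | inv_mem x hx =>
        obtain ⟨x, rfl⟩ := hx
        intro h hh
        rw [cj_inv_eq]
        exact mul_mem hh (inv_mem (KK_anti (by omega)
          (ih (m + 1) (by omega) _ _ (KK_br m x h hh))))
      | one => intro h hh; simpa using hh
      | mul a b _ _ ha hb => intro h hh; rw [← cj_cj]; exact hb _ (ha _ hh)
  have hR : ∀ m, ∀ a : G, ∀ h ∈ KK g m, br h a ∈ KK g (m + 1) := by
    intro m a
    have ha : a ∈ Subgroup.closure (Set.range g) := hg ▸ Subgroup.mem_top a
    induction ha using Subgroup.closure_induction with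
    | mem x hx => obtain ⟨x, rfl⟩ := hx; exact KK_br m x
    | one => intro h _; simp [br]
    | mul a b _ _ ha hb =>
      intro h hh
      have : br h (a * b) = br h a * br (cj a h) b := by ext; simp; group
      rw [this]
      exact mul_mem (ha h hh) (hb _ (hQ n m (by omega) a h hh))
    | inv a _ ha =>
      intro h hh
      have : br h a⁻¹ = (cj a⁻¹ (br h a))⁻¹ := by ext; simp; group
      rw [this]
      exact inv_mem (hQ n _ (by omega) _ _ (ha h hh))
  have hG : ∀ m, gam G (m + 2) ≤ (KK g (m + 2)).map (commutator G).subtype := by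
    intro m
    induction m with
    | zero =>
      intro a ha
      have ha' : a ∈ commutator G := ha
      refine ⟨⟨a, ha'⟩, ?_, rfl⟩
      have hh : (⟨a, ha'⟩ : commutator G) ∈ H g (n - 1) := by rw [H_top hn hg r0]; trivial
      refine H_le ?_ hh
      intro k _ y s hs
      exact (le_sup_left : _ ≤ KK g (0 + 2)) (Subgroup.subset_closure ⟨k, hs.two_le, y, hs⟩)
    | succ m ih =>
      rw [show m + 1 + 2 = (m + 2) + 1 by omega, gam_succ (by omega), Subgroup.commutator_le]
      intro a ha b _
      obtain ⟨h, hh, rfl⟩ := ih ha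
      exact ⟨br h⁻¹ b⁻¹, hR _ _ _ (inv_mem hh), by simp [commutatorElement_def, mul_assoc]⟩
  obtain ⟨m, rfl⟩ : ∃ m, n = m + 2 := ⟨n - 2, by omega⟩
  refine (hG m).trans ?_
  rw [hKn _ le_rfl, Subgroup.map_subtype_commutator]

end

end Pool.Agent.Lib.MP_841f14_al
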