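import Pool.Agent.Lib.MP_841f14_al.Defs
import Pool.Agent.Lib.MP_841f14_al.Comm

namespace Pool.Agent.Lib.MP_841f14_al

open scoped commutatorElement

variable {G : Type*} [Group G] {X : Type*}

@[simp] theorem ev_of (g : X → G) (x : X) : ev g (FreeMagma.of x) = g x := rfl
theorem ev_mul (g : X → G) (a b : FreeMagma X) :
    ev g (a * b) = (ev g a)⁻¹ * (ev g b)⁻¹ * ev g a * ev g b := rfl

theorem len_of (x : X) : (FreeMagma.of x).length = 1 := rfl
theorem len_mul (a b : FreeMagma X) : (a * b).length = a.length + b.length := rfl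

theorem len_pos (a : FreeMagma X) : 1 ≤ a.length := by
  induction a with
  | ih1 x => exact le_rfl
  | ih2 a b ha hb => rw [len_mul]; omega

theorem finite_len [Finite X] (m : ℕ) : {t : FreeMagma X | t.length ≤ m}.Finite := by
  induction m with
  | zero =>
    convert Set.finite_empty
    ext t
    have := len_pos t
    simp only [Set.mem_ofPred_eq, Set.mem_empty_iff_false, iff_false]; omega
  | succ m ih =>
    refine ((Set.finite_range FreeMagma.of).union (Set.Finite.image2 (· * ·) ih ih)).subset ?_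
    intro t ht
    rcases t with x | ⟨a, b⟩
    · exact Or.inl ⟨x, rfl⟩
    · right
      have h : a.length + b.length ≤ m + 1 := ht
      have := len_pos a
      have := len_pos b
      exact ⟨a, by simp only [Set.mem_ofPred_eq]; omega, b, by simp only [Set.mem_ofPred_eq]; omega,
        rfl⟩

/-- the term `γ_m` -/
def gam (G : Type*) [Group G] (m : ℕ) : Subgroup G := (⊤ : Subgroup G).lowerCentralSeries (m - 1)

instance (m : ℕ) : (gam G m).Normal := by unfold gam; infer_instance

theorem gam_comm {i j : ℕ} (hi : 1 ≤ i) (hj : 1 ≤ j) : ⁅gam G i, gam G j⁆ ≤ gam G (i + j) := by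
  have := lcs_commutator (⊤ : Subgroup G) (j - 1) (i - 1)
  rwa [show i - 1 + (j - 1) + 1 = i + j - 1 by omega] at this

theorem gam_anti {i j : ℕ} (h : i ≤ j) : gam G j ≤ gam G i :=
  Subgroup.lowerCentralSeries_antitone _ (by omega)

theorem gam_one : gam G 1 = ⊤ := rfl

theorem gam_succ {m : ℕ} (h : 1 ≤ m) : gam G (m + 1) = ⁅gam G m, ⊤⁆ := by
  unfold gam
  rw [show m + 1 - 1 = (m - 1) + 1 by omega, Subgroup.lowerCentralSeries_succ]

theorem cm_mem_gam {i j : ℕ} (hi : 1 ≤ i) (hj : 1 ≤ j) {a b : G} (ha : a ∈ gam G i)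
    (hb : b ∈ gam G j) : a⁻¹ * b⁻¹ * a * b ∈ gam G (i + j) := by
  have := gam_comm hi hj (Subgroup.commutator_mem_commutator (inv_mem ha) (inv_mem hb))
  simpa [commutatorElement_def] using this

theorem ev_mem_gam (g : X → G) (t : FreeMagma X) : ev g t ∈ gam G t.length := by
  induction t with
  | ih1 x => exact Subgroup.mem_top _
  | ih2 a b ha hb => exact cm_mem_gam (len_pos a) (len_pos b) ha hb

/-- the values of the basic commutators of weight `m` -/
def BS (lt : FreeMagma X → FreeMagma X → Prop) (g : X → G) (m : ℕ) : Set G :=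
  {w | ∃ t, IsBasic lt t ∧ t.length = m ∧ ev g t = w}

def Sp (lt : FreeMagma X → FreeMagma X → Prop) (g : X → G) (m : ℕ) : Subgroup G :=
  Subgroup.closure (BS lt g (m + 1)) ⊔ gam G (m + 2)

theorem Sp_le (lt : FreeMagma X → FreeMagma X → Prop) (g : X → G) (m : ℕ) :
    Sp lt g m ≤ gam G (m + 1) := by
  refine sup_le ?_ (gam_anti (by omega))
  rw [Subgroup.closure_le]
  rintro _ ⟨t, -, h, rfl⟩
  rw [← h]; exact ev_mem_gam g t

instance (lt : FreeMagma X → FreeMagma X → Prop) (g : X → G) (m : ℕ) : (Sp lt g m).Normal := by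
  constructor
  intro s hs x
  have h1 : ⁅s⁻¹, x⁆ ∈ gam G (m + 2) := by
    rw [gam_succ (by omega)]
    exact Subgroup.commutator_mem_commutator (inv_mem (Sp_le lt g m hs)) (Subgroup.mem_top _)
  have : x * s * x⁻¹ = s * ⁅s⁻¹, x⁆ := by simp [commutatorElement_def, mul_assoc]
  rw [this]
  exact mul_mem hs ((le_sup_right : gam G (m + 2) ≤ Sp lt g m) h1)

theorem cm_mem_iff (N : Subgroup G) [N.Normal] (a b : G) :
    a⁻¹ * b⁻¹ * a * b ∈ N ↔ Commute (QuotientGroup.mk' N a) (QuotientGroup.mk' N b) := by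
  have : a⁻¹ * b⁻¹ * a * b = ⁅a⁻¹, b⁻¹⁆ := by simp [commutatorElement_def]
  rw [this, comm_mem_iff, map_inv, map_inv, Commute.inv_inv_iff]

theorem jacobi_comm {Q : Type*} [Group Q] (a b c : Q)
    (h1 : Commute a (b⁻¹ * c⁻¹ * b * c)) (h2 : Commute (a⁻¹ * c⁻¹ * a * c) b)
    (h3 : Commute (a⁻¹ * c⁻¹ * a * c) (b⁻¹ * c⁻¹ * b * c))
    (h4 : Commute (a⁻¹ * b⁻¹ * a * b) (a⁻¹ * c⁻¹ * a * c))
    (h5 : Commute (a⁻¹ * b⁻¹ * a * b) (b⁻¹ * c⁻¹ * b * c)) :
    Commute (a⁻¹ * b⁻¹ * a * b) c := by
  set α := a⁻¹ * c⁻¹ * a * c with hα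
  set β := b⁻¹ * c⁻¹ * b * c with hβ
  have e1 : c⁻¹ * (a⁻¹ * b⁻¹ * a * b) * c = (a * α)⁻¹ * (b * β)⁻¹ * (a * α) * (b * β) := by
    rw [hα, hβ]; group
  have hc : Commute (a * α) β := h1.mul_left h3
  have e2 : (a * α)⁻¹ * (b * β)⁻¹ * (a * α) * (b * β) = β⁻¹ * ((a * α)⁻¹ * b⁻¹ * (a * α) * b) * β := by
    have := hc.inv_inv.eq
    calc (a * α)⁻¹ * (b * β)⁻¹ * (a * α) * (b * β)
        = ((a * α)⁻¹ * β⁻¹) * (b⁻¹ * (a * α) * (b * β)) := by group
      _ = (β⁻¹ * (a * α)⁻¹) * (b⁻¹ * (a * α) * (b * β)) := by rw [this]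
      _ = _ := by group
  have e3 : (a * α)⁻¹ * b⁻¹ * (a * α) * b = a⁻¹ * b⁻¹ * a * b := by
    calc (a * α)⁻¹ * b⁻¹ * (a * α) * b = α⁻¹ * (a⁻¹ * b⁻¹ * a) * (α * b) := by group
      _ = α⁻¹ * (a⁻¹ * b⁻¹ * a) * (b * α) := by rw [h2.eq]
      _ = α⁻¹ * ((a⁻¹ * b⁻¹ * a * b) * α) := by group
      _ = α⁻¹ * (α * (a⁻¹ * b⁻¹ * a * b)) := by rw [h4.eq]
      _ = _ := by group
  rw [e2, e3] at e1
  have e4 : β⁻¹ * (a⁻¹ * b⁻¹ * a * b) * β = a⁻¹ * b⁻¹ * a * b := by
    rw [mul_assoc, h5.eq]; group
  rw [e4] at e1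
  show (a⁻¹ * b⁻¹ * a * b) * c = c * (a⁻¹ * b⁻¹ * a * b)
  conv_rhs => rw [← e1]
  group

theorem commute_of_gam (lt : FreeMagma X → FreeMagma X → Prop) (g : X → G) {m i j : ℕ}
    (hi : 1 ≤ i) (hj : 1 ≤ j) (h : m + 2 ≤ i + j) {a b : G} (ha : a ∈ gam G i)
    (hb : b ∈ gam G j) :
    Commute (QuotientGroup.mk' (Sp lt g m) a) (QuotientGroup.mk' (Sp lt g m) b) := by
  rw [← cm_mem_iff]
  exact (le_sup_right : gam G (m + 2) ≤ Sp lt g m) (gam_anti h (cm_mem_gam hi hj ha hb))

theorem commute_of_Sp (lt : FreeMagma X → FreeMagma X → Prop) (g : X → G) {m i j : ℕ}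
    (hj : 1 ≤ j) (h : m = i + j) {a b : G} (ha : a ∈ Sp lt g i) (hb : b ∈ gam G j)
    (H : ∀ t, IsBasic lt t → t.length = i + 1 →
      Commute (QuotientGroup.mk' (Sp lt g m) (ev g t)) (QuotientGroup.mk' (Sp lt g m) b)) :
    Commute (QuotientGroup.mk' (Sp lt g m) a) (QuotientGroup.mk' (Sp lt g m) b) := by
  have : Sp lt g i ≤
      (Subgroup.centralizer {QuotientGroup.mk' (Sp lt g m) b}).comap (QuotientGroup.mk' _) := by
    refine sup_le ?_ ?_
    · rw [Subgroup.closure_le]
      rintro _ ⟨t, ht, hl, rfl⟩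
      exact Subgroup.mem_centralizer_singleton_iff.2 (H t ht hl).eq
    · intro w hw
      exact Subgroup.mem_centralizer_singleton_iff.2
        (commute_of_gam lt g (by omega) hj (by omega) hw hb).eq
  exact Subgroup.mem_centralizer_singleton_iff.1 (this ha)

theorem span_pair [Finite X] {lt : FreeMagma X → FreeMagma X → Prop} (hlt : IsHallOrder lt)
    (g : X → G) (m : ℕ) : ∀ u v, IsBasic lt u → IsBasic lt v → u.length + v.length = m + 1 →
      Commute (QuotientGroup.mk' (Sp lt g m) (ev g u)) (QuotientGroup.mk' (Sp lt g m) (ev g v)) := by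
  induction m using Nat.strong_induction_on with
  | _ m ihm =>
  have inner : ∀ k, ∀ v, IsBasic lt v →
      {b | IsBasic lt b ∧ b.length ≤ m ∧ lt v b}.ncard = k → ∀ u, IsBasic lt u → lt v u →
      u.length + v.length = m + 1 →
      Commute (QuotientGroup.mk' (Sp lt g m) (ev g u)) (QuotientGroup.mk' (Sp lt g m) (ev g v)) := by
    intro k
    induction k using Nat.strong_induction_on with
    | _ k ihk =>
    intro v hv hk u hu hvu hlen
    have basic_case : IsBasic lt (u * v) →
        Commute (QuotientGroup.mk' (Sp lt g m) (ev g u))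
          (QuotientGroup.mk' (Sp lt g m) (ev g v)) := by
      intro hb
      rw [← cm_mem_iff]
      exact (le_sup_left : Subgroup.closure (BS lt g (m + 1)) ≤ Sp lt g m)
        (Subgroup.subset_closure ⟨u * v, hb, hlen, rfl⟩)
    have big : ∀ w w', IsBasic lt w → IsBasic lt w' → lt v w → lt v w' →
        w.length + w'.length = m + 1 →
        Commute (QuotientGroup.mk' (Sp lt g m) (ev g w))
          (QuotientGroup.mk' (Sp lt g m) (ev g w')) := by
      have aux : ∀ w w', IsBasic lt w → IsBasic lt w' → lt v w' → lt w' w →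
          w.length + w'.length = m + 1 →
          Commute (QuotientGroup.mk' (Sp lt g m) (ev g w))
            (QuotientGroup.mk' (Sp lt g m) (ev g w')) := by
        intro w w' hw hw' h1 h2 hl
        refine ihk _ ?_ w' hw' rfl w hw h2 hl
        rw [← hk]
        apply Set.ncard_lt_ncard
        · constructor
          · rintro b ⟨hb, hb1, hb2⟩
            exact ⟨hb, hb1, hlt.trans _ _ _ hv hw' hb h1 hb2⟩
          · intro hsub
            have := len_pos w
            exact hlt.irrefl _ hw' (hsub ⟨hw', by omega, h1⟩).2.2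
        · exact (finite_len m).subset (fun b hb => hb.2.1)
      intro w w' hw hw' h1 h2 hl
      rcases hlt.total w w' hw hw' with h | h | h
      · rw [h]
      · exact (aux w' w hw' hw h1 h (by omega)).symm
      · exact aux w w' hw hw' h2 h hl
    cases hu with
    | of x => exact basic_case (IsBasic.mul _ _ (IsBasic.of x) hv hvu (by intro c₁ c₂ h; cases h))
    | mul a b ha hb hba hrf =>
      have hab : IsBasic lt (a * b) := IsBasic.mul a b ha hb hba hrf
      rcases hlt.total b v hb hv with h | h | h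
      · refine basic_case (IsBasic.mul _ _ hab hv hvu ?_)
        intro c₁ c₂ he
        cases he
        exact Or.inl h
      · refine basic_case (IsBasic.mul _ _ hab hv hvu ?_)
        intro c₁ c₂ he
        cases he
        exact Or.inr h
      · have hva : lt v a := hlt.trans _ _ _ hv hb ha h hba
        have la := len_pos a
        have lb := len_pos b
        have lv := len_pos v
        rw [len_mul] at hlen
        have hav : (ev g a)⁻¹ * (ev g v)⁻¹ * ev g a * ev g v ∈
            Sp lt g (a.length + v.length - 1) := by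
          rw [cm_mem_iff]
          exact ihm _ (by omega) a v ha hv (by omega)
        have hbv : (ev g b)⁻¹ * (ev g v)⁻¹ * ev g b * ev g v ∈
            Sp lt g (b.length + v.length - 1) := by
          rw [cm_mem_iff]
          exact ihm _ (by omega) b v hb hv (by omega)
        have ga := ev_mem_gam g a
        have gb := ev_mem_gam g b
        have gv := ev_mem_gam g v
        have h1 := commute_of_Sp lt g (m := m) la (by omega) hbv ga (fun t ht hl =>
          big t a ht ha (hlt.weight _ _ hv ht (by omega)) hva (by omega))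
        have h2 := commute_of_Sp lt g (m := m) lb (by omega) hav gb (fun t ht hl =>
          big t b ht hb (hlt.weight _ _ hv ht (by omega)) h (by omega))
        have h3 := commute_of_gam lt g (m := m) (by omega) (by omega) (by omega)
          (cm_mem_gam la lv ga gv) (cm_mem_gam lb lv gb gv)
        have h4 := commute_of_gam lt g (m := m) (by omega) (by omega) (by omega)
          (cm_mem_gam la lb ga gb) (cm_mem_gam la lv ga gv)
        have h5 := commute_of_gam lt g (m := m) (by omega) (by omega) (by omega)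
          (cm_mem_gam la lb ga gb) (cm_mem_gam lb lv gb gv)
        rw [ev_mul]
        simp only [map_mul, map_inv] at h1 h2 h3 h4 h5 ⊢
        exact jacobi_comm _ _ _ h1.symm h2 h3 h4 h5
  intro u v hu hv hl
  rcases hlt.total u v hu hv with h | h | h
  · rw [h]
  · exact (inner _ u hu rfl v hv h (by omega)).symm
  · exact inner _ v hv rfl u hu h hl

theorem gam_le_Sp [Finite X] {lt : FreeMagma X → FreeMagma X → Prop} (hlt : IsHallOrder lt)
    (g : X → G) (hg : Subgroup.closure (Set.range g) = ⊤) (m : ℕ) :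
    gam G (m + 1) ≤ Sp lt g m := by
  induction m with
  | zero =>
    refine le_trans ?_ (le_sup_left : Subgroup.closure (BS lt g (0 + 1)) ≤ Sp lt g 0)
    rw [zero_add, gam_one, ← hg]
    apply Subgroup.closure_mono
    rintro _ ⟨x, rfl⟩
    exact ⟨FreeMagma.of x, IsBasic.of x, rfl, rfl⟩
  | succ m ih =>
    rw [gam_succ (by omega), ← hg, ← Subgroup.closure_eq (gam G (m + 1))]
    apply commutator_closure_le
    rintro u hu _ ⟨x, rfl⟩
    rw [comm_mem_iff]
    exact commute_of_Sp lt g (m := m + 1) (j := 1) le_rfl rfl (ih hu) (Subgroup.mem_top _)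
      (fun t ht hl => span_pair hlt g (m + 1) t (FreeMagma.of x) ht (IsBasic.of x)
        (by rw [hl, len_of]))

/-- If the basic commutators of weight `n` vanish and `G` is nilpotent then `γ_n(G) = 1`. -/
theorem gam_eq_bot [Finite X] {lt : FreeMagma X → FreeMagma X → Prop} (hlt : IsHallOrder lt)
    (g : X → G) (hg : Subgroup.closure (Set.range g) = ⊤) (n : ℕ) (hn : 1 ≤ n)
    (hrel : ∀ t, IsBasic lt t → t.length = n → ev g t = 1)
    {r : ℕ} (hr : (⊤ : Subgroup G).lowerCentralSeries r = ⊥) : gam G n = ⊥ := by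
  obtain ⟨m, rfl⟩ : ∃ m, n = m + 1 := ⟨n - 1, by omega⟩
  have h1 : gam G (m + 1) ≤ gam G (m + 2) := by
    refine (gam_le_Sp hlt g hg m).trans (sup_le ?_ le_rfl)
    rw [Subgroup.closure_le]
    rintro _ ⟨t, ht, hl, rfl⟩
    rw [hrel t ht hl]; exact one_mem _
  have h2 : ∀ k, gam G (m + 1) ≤ gam G (m + 1 + k) := by
    intro k
    induction k with
    | zero => exact le_rfl
    | succ k ih =>
      refine h1.trans ?_
      rw [gam_succ (by omega), ← add_assoc, gam_succ (m := m + 1 + k) (by omega)]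
      exact Subgroup.commutator_mono ih le_rfl
  rw [eq_bot_iff, ← hr]
  refine (h2 r).trans ?_
  exact Subgroup.lowerCentralSeries_antitone _ (by omega)

end Pool.Agent.Lib.MP_841f14_al
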